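import Pool.Agent.TrapF22.Defs

set_option autoImplicit false

namespace Pool.Agent.MP_f22ace_co.Trap

open Finset

variable {d : ℕ}

/-- at most `(4d)^t` lattice points differ from `x` in at most `t` coordinates. -/
lemma card_near_le (hd : 1 ≤ d) (t : ℕ) (x : Pt d) :
    (univ.filter (fun y : Pt d => (df x y).card ≤ t)).card ≤ (4 * d) ^ t := by
  classical
  induction t with
  | zero =>
    rw [pow_zero]
    refine card_le_one.2 ?_
    intro a ha b hb
    simp only [mem_filter, mem_univ, true_and, Nat.le_zero, card_eq_zero] at ha hb
    have key : ∀ y : Pt d, df x y = ∅ → y = x := by
      intro y hy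
      funext i
      by_contra h
      have : i ∈ df x y := by
        simp only [df, mem_filter, mem_univ, true_and]
        exact fun h' => h h'.symm
      rw [hy] at this
      simp at this
    rw [key a ha, key b hb]
  | succ t ih =>
    have hsub : (univ.filter (fun y : Pt d => (df x y).card ≤ t + 1)) ⊆
        ((univ.filter (fun y : Pt d => (df x y).card ≤ t)) ×ˢ
          (univ : Finset (Fin d × Fin (3 + 1)))).image
            (fun p => Function.update p.1 p.2.1 p.2.2) := by
      intro y hy
      simp only [mem_filter, mem_univ, true_and] at hy
      rw [mem_image]
      by_cases h : (df x y).Nonempty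
      · obtain ⟨i, hi⟩ := h
        refine ⟨(Function.update y i (x i), (i, y i)), ?_, ?_⟩
        · simp only [mem_product, mem_filter, mem_univ, true_and, and_true]
          have hs : df x (Function.update y i (x i)) ⊆ (df x y).erase i := by
            intro j hj
            simp only [df, mem_filter, mem_univ, true_and, mem_erase] at hj ⊢
            by_cases hji : j = i
            · subst hji
              simp at hj
            · rw [Function.update_of_ne hji] at hj
              exact ⟨hji, hj⟩
          have h1 := card_le_card hs
          rw [card_erase_of_mem hi] at h1
          omega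
        · simp
      · rw [not_nonempty_iff_eq_empty] at h
        have i0 : Fin d := ⟨0, by omega⟩
        refine ⟨(y, (i0, y i0)), ?_, ?_⟩
        · simp only [mem_product, mem_filter, mem_univ, true_and, and_true]
          rw [h]; simp
        · simp
    calc (univ.filter (fun y : Pt d => (df x y).card ≤ t + 1)).card
        ≤ _ := card_le_card hsub
      _ ≤ _ := card_image_le
      _ = (univ.filter (fun y : Pt d => (df x y).card ≤ t)).card * (d * 4) := by
          rw [card_product, card_univ, Fintype.card_prod, Fintype.card_fin, Fintype.card_fin]
      _ ≤ (4 * d) ^ t * (d * 4) := Nat.mul_le_mul_right _ ih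
      _ = (4 * d) ^ (t + 1) := by rw [pow_succ]; ring

/-- few small subsets. -/
lemma card_small_subsets_le {α : Type} [DecidableEq α] (X : Finset α) (t : ℕ) :
    (X.powerset.filter (fun R => R.card ≤ t)).card ≤ (X.card + 1) ^ t := by
  induction t with
  | zero =>
    rw [pow_zero]
    refine card_le_one.2 ?_
    intro a ha b hb
    simp only [mem_filter, Nat.le_zero, card_eq_zero] at ha hb
    rw [ha.2, hb.2]
  | succ t ih =>
    have hsub : (X.powerset.filter (fun R => R.card ≤ t + 1)) ⊆
        ((X.powerset.filter (fun R => R.card ≤ t)) ×ˢ (insertNone X)).image
            (fun p => match p.2 with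
              | none => p.1
              | some a => insert a p.1) := by
      intro R hR
      simp only [mem_filter, mem_powerset] at hR
      rw [mem_image]
      by_cases h : R.Nonempty
      · obtain ⟨a, ha⟩ := h
        refine ⟨(R.erase a, some a), ?_, ?_⟩
        · simp only [mem_product, mem_filter, mem_powerset, some_mem_insertNone]
          refine ⟨⟨(erase_subset _ _).trans hR.1, ?_⟩, hR.1 ha⟩
          rw [card_erase_of_mem ha]
          omega
        · simp only
          exact insert_erase ha
      · rw [not_nonempty_iff_eq_empty] at h
        refine ⟨(R, none), ?_, rfl⟩
        simp only [mem_product, mem_filter, mem_powerset, none_mem_insertNone, and_true]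
        refine ⟨hR.1, ?_⟩
        rw [h]; simp
    calc (X.powerset.filter (fun R => R.card ≤ t + 1)).card
        ≤ _ := card_le_card hsub
      _ ≤ _ := card_image_le
      _ = (X.powerset.filter (fun R => R.card ≤ t)).card * (X.card + 1) := by
          rw [card_product, card_insertNone]
      _ ≤ (X.card + 1) ^ t * (X.card + 1) := Nat.mul_le_mul_right _ ih
      _ = (X.card + 1) ^ (t + 1) := by rw [pow_succ]

/-- The inner set together with a bit for each coordinate determines the point. -/
lemma card_level (d j : ℕ) :
    (univ.filter (fun x : Pt d => (inn x).card = j)).card = d.choose j * 2 ^ d := by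
  have h1 : (univ.filter (fun x : Pt d => (inn x).card = j)).card =
      ((powersetCard j (univ : Finset (Fin d))) ×ˢ (univ : Finset (Fin d → Bool))).card := by
    refine card_nbij' (fun x => (inn x, fun i => decide (x i = 1 ∨ x i = 3)))
      (fun p => fun i => if i ∈ p.1 then (if p.2 i then 1 else 2) else (if p.2 i then 3 else 0))
      ?_ ?_ ?_ ?_
    · intro x hx
      simp only [coe_filter, mem_univ, true_and, Set.mem_ofPred_eq] at hx
      simp only [coe_product, Set.mem_prod, mem_coe, mem_powersetCard, subset_univ, true_and,
        mem_univ, and_true]
      exact hx
    · intro p hp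
      simp only [coe_product, Set.mem_prod, mem_coe, mem_powersetCard, subset_univ, true_and,
        mem_univ, and_true] at hp
      simp only [coe_filter, mem_univ, true_and, Set.mem_ofPred_eq]
      have : inn (fun i => if i ∈ p.1 then (if p.2 i then (1 : Fin (3 + 1)) else 2)
          else (if p.2 i then 3 else 0)) = p.1 := by
        ext i
        simp only [inn, mem_filter, mem_univ, true_and]
        by_cases hi : i ∈ p.1
        · simp only [hi, if_true, iff_true]
          by_cases hb : p.2 i = true
          · simp [hb]
          · simp [hb]
        · simp only [hi, if_false, iff_false]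
          by_cases hb : p.2 i = true
          · simp [hb]
          · simp [hb]
      rw [this]
      exact hp
    · intro x hx
      funext i
      simp only [inn, mem_filter, mem_univ, true_and]
      have key : ∀ u : Fin (3 + 1), (if u = 1 ∨ u = 2 then
          (if decide (u = 1 ∨ u = 3) = true then (1 : Fin (3 + 1)) else 2)
          else (if decide (u = 1 ∨ u = 3) = true then 3 else 0)) = u := by decide
      exact key (x i)
    · intro p hp
      refine Prod.ext ?_ ?_
      · ext i
        simp only [inn, mem_filter, mem_univ, true_and]
        by_cases hi : i ∈ p.1
        · simp only [hi, if_true, iff_true]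
          by_cases hb : p.2 i = true
          · simp [hb]
          · simp [hb]
        · simp only [hi, if_false, iff_false]
          by_cases hb : p.2 i = true
          · simp [hb]
          · simp [hb]
      · funext i
        simp only
        by_cases hi : i ∈ p.1
        · by_cases hb : p.2 i = true
          · simp [hi, hb]
          · simp [hi, hb]
        · by_cases hb : p.2 i = true
          · simp [hi, hb]
          · simp [hi, hb]
  rw [h1, card_product, card_powersetCard, card_univ, card_univ, Fintype.card_fun,
    Fintype.card_fin, Fintype.card_bool]

end Pool.Agent.MP_f22ace_co.Trap
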