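import Pool.Agent.TrapF22.Defs

/-!
# A trap in the graph `Λ(d,3)`: convex position
-/

set_option autoImplicit false

namespace Pool.Agent.MP_f22ace_co.Trap

open Finset

variable {d : ℕ}

lemma mem_inn {x : Pt d} {i : Fin d} : i ∈ inn x ↔ (x i = 1 ∨ x i = 2) := by
  simp [inn]

lemma fin4_cases (a : Fin (3 + 1)) : a = 0 ∨ a = 1 ∨ a = 2 ∨ a = 3 := by
  revert a; decide

lemma not_mem_inn {x : Pt d} {i : Fin d} : i ∉ inn x ↔ (x i = 0 ∨ x i = 3) := by
  rw [mem_inn]
  generalize x i = a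
  revert a; decide

lemma fc_refl (x : Pt d) : fc x x := fun _ _ => rfl

lemma inn_subset_of_fc {x y : Pt d} (h : fc x y) : inn y ⊆ inn x := by
  intro i hi
  by_contra hx
  rw [not_mem_inn] at hx
  have h1 := h i hx
  rw [← h1, ← not_mem_inn] at hx
  exact hx hi

lemma CP.mono {A B : Finset (Pt d)} (hA : CP A) (h : B ⊆ A) : CP B := by
  intro a ha
  obtain ⟨f, hf⟩ := hA a (h ha)
  exact ⟨f, fun b hb hne => hf b (h hb) hne⟩

lemma not_CP_of_mid {A : Finset (Pt d)} {a b c : Pt d} (hA : CP A) (ha : a ∈ A) (hb : b ∈ A)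
    (hc : c ∈ A) (hba : b ≠ a) (hca : c ≠ a)
    (h : latPt d 3 b + latPt d 3 c = latPt d 3 a + latPt d 3 a) : False := by
  obtain ⟨f, hf⟩ := hA a ha
  have h1 := hf b hb hba
  have h2 := hf c hc hca
  have h3 := congrArg f h
  rw [map_add, map_add] at h3
  linarith

lemma CP_code (P : LatticePolytope d 3) : CP (code P) := by
  intro a ha
  have ha' : latPt d 3 a ∈ vertexSet P.1 := mem_code.1 ha
  have h1 := notMem_convexHull_of_mem_vertexSet P.2.1.1.convex ha'
  have hfin : (vertexSet P.1 \ {latPt d 3 a}).Finite :=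
    P.2.1.1.finite_vertexSet.subset Set.sdiff_subset
  obtain ⟨f, u, hf1, hf2⟩ := geometric_hahn_banach_closed_point
    (convex_convexHull ℝ (vertexSet P.1 \ {latPt d 3 a})) (hfin.isClosed_convexHull ℝ) h1
  refine ⟨f.toLinearMap, fun b hb hne => ?_⟩
  have hb' : latPt d 3 b ∈ vertexSet P.1 \ {latPt d 3 a} :=
    ⟨mem_code.1 hb, fun h => hne (latPt_injective h)⟩
  have := hf1 _ (subset_convexHull ℝ _ hb')
  exact this.trans hf2

lemma exists_code_of_CP (A : Finset (Pt d)) (hA : CP A) (hs : Spanning A) :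
    ∃ P : LatticePolytope d 3, code P = A := by
  have key : vertexSet (convexHull ℝ (latPt d 3 '' (A : Set (Pt d)))) =
        latPt d 3 '' (A : Set (Pt d)) := by
    apply vertexSet_convexHull_eq ((Finset.finite_toSet A).image _)
    rintro x ⟨z, hz, rfl⟩ hx
    obtain ⟨f, hf⟩ := hA z hz
    have hconv : Convex ℝ {y : Fin d → ℝ | f y < f (latPt d 3 z)} :=
      convex_halfSpace_lt f.isLinear _
    have hsub : latPt d 3 '' (A : Set (Pt d)) \ {latPt d 3 z} ⊆
        {y : Fin d → ℝ | f y < f (latPt d 3 z)} := by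
      rintro y ⟨⟨w, hw, rfl⟩, hne⟩
      apply hf w hw
      rintro rfl
      exact hne rfl
    have := convexHull_min hsub hconv hx
    simp only [Set.mem_ofPred_eq, lt_irrefl] at this
  refine ⟨⟨convexHull ℝ (latPt d 3 '' (A : Set (Pt d))),
    isLatticePolytope_convexHull ((Finset.finite_toSet A).image _) ?_ hs, ?_⟩, ?_⟩
  · rintro x ⟨z, -, rfl⟩
    exact latPt_isLatticePoint z
  · apply convexHull_min _ box_convex
    rintro x ⟨z, -, rfl⟩
    exact latPt_mem_box z
  · ext z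
    simp only [code, Finset.mem_filter, Finset.mem_univ, true_and]
    rw [key, latPt_injective.mem_set_image]
    simp

/-- coefficients of the functional exposing `a` in the small cube -/
noncomputable def cf (L : ℝ) (a : Fin (3 + 1)) : ℝ :=
  if a = 0 then -L else if a = 3 then L else if a = 1 then -1 else 1

/-- coefficients of the functional of the face of `a` -/
noncomputable def cg (a : Fin (3 + 1)) : ℝ :=
  if a = 0 then -1 else if a = 3 then 1 else 0

lemma cf_0 (L : ℝ) : cf L 0 = -L := by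
  unfold cf; rw [if_pos rfl]
lemma cf_1 (L : ℝ) : cf L 1 = -1 := by
  unfold cf; rw [if_neg (by decide), if_neg (by decide), if_pos rfl]
lemma cf_2 (L : ℝ) : cf L 2 = 1 := by
  unfold cf; rw [if_neg (by decide), if_neg (by decide), if_neg (by decide)]
lemma cf_3 (L : ℝ) : cf L 3 = L := by
  unfold cf; rw [if_neg (by decide), if_pos rfl]
lemma cg_0 : cg 0 = -1 := by
  unfold cg; rw [if_pos rfl]
lemma cg_1 : cg 1 = 0 := by
  unfold cg; rw [if_neg (by decide), if_neg (by decide)]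
lemma cg_2 : cg 2 = 0 := by
  unfold cg; rw [if_neg (by decide), if_neg (by decide)]
lemma cg_3 : cg 3 = 1 := by
  unfold cg; rw [if_neg (by decide), if_pos rfl]
lemma v0 : (((0 : Fin (3 + 1)) : ℕ) : ℝ) = 0 := by norm_num
lemma v1 : (((1 : Fin (3 + 1)) : ℕ) : ℝ) = 1 := by norm_num
lemma v2 : (((2 : Fin (3 + 1)) : ℕ) : ℝ) = 2 := by
  have : ((2 : Fin (3 + 1)) : ℕ) = 2 := rfl
  rw [this]; norm_num
lemma v3 : (((3 : Fin (3 + 1)) : ℕ) : ℝ) = 3 := by
  have : ((3 : Fin (3 + 1)) : ℕ) = 3 := rfl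
  rw [this]; norm_num

lemma cf_ge (L : ℝ) (hL : 0 ≤ L) (a b : Fin (3 + 1)) :
    -1 ≤ cf L a * (((a : ℕ) : ℝ) - ((b : ℕ) : ℝ)) := by
  rcases fin4_cases a with rfl | rfl | rfl | rfl <;> rcases fin4_cases b with rfl | rfl | rfl | rfl <;>
    simp only [cf_0, cf_1, cf_2, cf_3, v0, v1, v2, v3] <;> nlinarith

lemma cf_out (L : ℝ) (hL : 0 ≤ L) (a b : Fin (3 + 1)) (ha : a = 0 ∨ a = 3) (hab : b ≠ a) :
    L ≤ cf L a * (((a : ℕ) : ℝ) - ((b : ℕ) : ℝ)) := by
  rcases ha with rfl | rfl <;> rcases fin4_cases b with rfl | rfl | rfl | rfl <;>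
    first
      | exact absurd rfl hab
      | (simp only [cf_0, cf_1, cf_2, cf_3, v0, v1, v2, v3]; nlinarith)

lemma cf_inn (L : ℝ) (a b : Fin (3 + 1)) (ha : a = 1 ∨ a = 2) (hb : b = 1 ∨ b = 2)
    (hab : b ≠ a) : 0 < cf L a * (((a : ℕ) : ℝ) - ((b : ℕ) : ℝ)) := by
  rcases ha with rfl | rfl <;> rcases hb with rfl | rfl <;>
    first
      | exact absurd rfl hab
      | (simp only [cf_0, cf_1, cf_2, cf_3, v0, v1, v2, v3]; norm_num)

lemma cg_ge (a b : Fin (3 + 1)) : 0 ≤ cg a * (((a : ℕ) : ℝ) - ((b : ℕ) : ℝ)) := by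
  rcases fin4_cases a with rfl | rfl | rfl | rfl <;> rcases fin4_cases b with rfl | rfl | rfl | rfl <;>
    simp only [cg_0, cg_1, cg_2, cg_3, v0, v1, v2, v3] <;> norm_num

lemma cg_out (a b : Fin (3 + 1)) (ha : a = 0 ∨ a = 3) (hab : b ≠ a) :
    1 ≤ cg a * (((a : ℕ) : ℝ) - ((b : ℕ) : ℝ)) := by
  rcases ha with rfl | rfl <;> rcases fin4_cases b with rfl | rfl | rfl | rfl <;>
    first
      | exact absurd rfl hab
      | (simp only [cg_0, cg_1, cg_2, cg_3, v0, v1, v2, v3]; norm_num)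

/-- functional with given coefficients -/
noncomputable def fnl (c : Fin d → ℝ) : (Fin d → ℝ) →ₗ[ℝ] ℝ := ∑ i, c i • LinearMap.proj i

lemma fnl_apply (c : Fin d → ℝ) (v : Fin d → ℝ) : fnl c v = ∑ i, c i * v i := by
  simp [fnl, LinearMap.sum_apply, LinearMap.smul_apply, LinearMap.proj_apply]

lemma fnl_sub (c : Fin d → ℝ) (a b : Pt d) :
    fnl c (latPt d 3 a) - fnl c (latPt d 3 b) =
      ∑ i, c i * (((a i : ℕ) : ℝ) - ((b i : ℕ) : ℝ)) := by
  rw [fnl_apply, fnl_apply, ← Finset.sum_sub_distrib]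
  apply Finset.sum_congr rfl
  intro i _
  simp only [latPt]
  ring

lemma exposed1 (a : Pt d) : ∃ f : (Fin d → ℝ) →ₗ[ℝ] ℝ, ∀ b : Pt d, b ≠ a →
    (fc a b → inn b = inn a) → f (latPt d 3 b) < f (latPt d 3 a) := by
  refine ⟨fnl (fun i => cf ((d : ℝ) + 1) (a i)), ?_⟩
  intro b hne hfc
  rw [← sub_pos, fnl_sub]
  have hL : (0 : ℝ) ≤ (d : ℝ) + 1 := by positivity
  by_cases h : fc a b
  · have hinn := hfc h
    have hex : ∃ i, b i ≠ a i := by
      by_contra hcon
      push Not at hcon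
      exact hne (funext hcon)
    obtain ⟨i, hi⟩ := hex
    have hge : ∀ j, 0 ≤ cf ((d : ℝ) + 1) (a j) * (((a j : ℕ) : ℝ) - ((b j : ℕ) : ℝ)) := by
      intro j
      by_cases hj : b j = a j
      · rw [hj]; simp
      · by_cases hja : j ∈ inn a
        · have hjb : j ∈ inn b := by rw [hinn]; exact hja
          exact (cf_inn _ _ _ (mem_inn.1 hja) (mem_inn.1 hjb) hj).le
        · exact absurd (h j (not_mem_inn.1 hja)) hj
    apply Finset.sum_pos' (fun j _ => hge j)
    refine ⟨i, Finset.mem_univ _, ?_⟩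
    have hia : i ∈ inn a := by
      by_contra hia
      exact hi (h i (not_mem_inn.1 hia))
    have hib : i ∈ inn b := by rw [hinn]; exact hia
    exact cf_inn _ _ _ (mem_inn.1 hia) (mem_inn.1 hib) hi
  · have hex : ∃ i, (a i = 0 ∨ a i = 3) ∧ b i ≠ a i := by
      by_contra hcon
      apply h
      intro i hi
      by_contra hb
      exact hcon ⟨i, hi, hb⟩
    obtain ⟨i, hi, hbi⟩ := hex
    rw [← Finset.add_sum_erase _ _ (Finset.mem_univ i)]
    have h1 := cf_out ((d : ℝ) + 1) hL (a i) (b i) hi hbi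
    have h2 : -((Finset.univ.erase i).card : ℝ) ≤
        ∑ j ∈ Finset.univ.erase i, cf ((d : ℝ) + 1) (a j) * (((a j : ℕ) : ℝ) - ((b j : ℕ) : ℝ)) := by
      have := Finset.card_nsmul_le_sum (Finset.univ.erase i)
        (fun j => cf ((d : ℝ) + 1) (a j) * (((a j : ℕ) : ℝ) - ((b j : ℕ) : ℝ))) (-1)
        (fun j _ => cf_ge _ hL _ _)
      simpa using this
    have h3 : ((Finset.univ.erase i).card : ℝ) ≤ d := by
      have : (Finset.univ.erase i).card ≤ d := by
        refine (Finset.card_le_univ _).trans ?_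
        simp
      exact_mod_cast this
    linarith

lemma exposed2 (a : Pt d) : ∃ f : (Fin d → ℝ) →ₗ[ℝ] ℝ,
    (∀ b : Pt d, 0 ≤ f (latPt d 3 a) - f (latPt d 3 b)) ∧
    ∀ b : Pt d, ¬ fc a b → 1 ≤ f (latPt d 3 a) - f (latPt d 3 b) := by
  refine ⟨fnl (fun i => cg (a i)), ?_, ?_⟩
  · intro b
    rw [fnl_sub]
    exact Finset.sum_nonneg (fun j _ => cg_ge _ _)
  · intro b h
    rw [fnl_sub]
    have hex : ∃ i, (a i = 0 ∨ a i = 3) ∧ b i ≠ a i := by
      by_contra hcon
      apply h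
      intro i hi
      by_contra hb
      exact hcon ⟨i, hi, hb⟩
    obtain ⟨i, hi, hbi⟩ := hex
    refine (cg_out _ _ hi hbi).trans ?_
    exact Finset.single_le_sum (f := fun j => cg (a j) * (((a j : ℕ) : ℝ) - ((b j : ℕ) : ℝ)))
      (fun j _ => cg_ge _ _) (Finset.mem_univ i)

/-- Clean points can be added. -/
lemma CP_union {m : ℕ} {B Z : Finset (Pt d)} (hB : CP B) (hBm : ∀ b ∈ B, (inn b).card ≤ m)
    (hZ : ∀ z ∈ Z, (inn z).card = m) (hcl : ∀ z ∈ Z, ∀ b ∈ B, fc z b → (inn b).card = m) :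
    CP (B ∪ Z) := by
  intro a ha
  by_cases h : ∃ z ∈ Z, fc a z
  · obtain ⟨z, hz, haz⟩ := h
    have h1 : inn z ⊆ inn a := inn_subset_of_fc haz
    have h2 : (inn a).card ≤ m := by
      rcases Finset.mem_union.1 ha with h | h
      · exact hBm a h
      · exact (hZ a h).le
    have h3 : inn z = inn a := Finset.eq_of_subset_of_card_le h1 (by rw [hZ z hz]; exact h2)
    have h4 : (inn a).card = m := by rw [← h3, hZ z hz]
    obtain ⟨f, hf⟩ := exposed1 a
    refine ⟨f, fun b hb hne => hf b hne (fun hab => ?_)⟩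
    apply Finset.eq_of_subset_of_card_le (inn_subset_of_fc hab)
    rw [h4]
    rcases Finset.mem_union.1 hb with h | h
    · have : fc z b := by
        intro i hi
        have hi' : i ∉ inn z := not_mem_inn.2 hi
        rw [h3, not_mem_inn] at hi'
        rw [hab i hi', haz i hi']
      exact (hcl z hz b h this).ge
    · exact (hZ b h).ge
  · push Not at h
    have haB : a ∈ B := by
      rcases Finset.mem_union.1 ha with h' | h'
      · exact h'
      · exact absurd (fc_refl a) (h a h')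
    obtain ⟨u, hu⟩ := hB a haB
    obtain ⟨φ, hφ1, hφ2⟩ := exposed2 a
    set L : ℝ := ∑ z ∈ Z, |u (latPt d 3 z) - u (latPt d 3 a)| + 1 with hL
    have hL0 : 0 ≤ L := by
      have : 0 ≤ ∑ z ∈ Z, |u (latPt d 3 z) - u (latPt d 3 a)| :=
        Finset.sum_nonneg (fun _ _ => abs_nonneg _)
      linarith
    refine ⟨u + L • φ, fun b hb hne => ?_⟩
    simp only [LinearMap.add_apply, LinearMap.smul_apply, smul_eq_mul]
    by_cases hbZ : b ∈ Z
    · have h1 := hφ2 b (h b hbZ)
      have h2 : |u (latPt d 3 b) - u (latPt d 3 a)| ≤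
          ∑ z ∈ Z, |u (latPt d 3 z) - u (latPt d 3 a)| :=
        Finset.single_le_sum (f := fun z => |u (latPt d 3 z) - u (latPt d 3 a)|)
          (fun _ _ => abs_nonneg _) hbZ
      have h3 := le_abs_self (u (latPt d 3 b) - u (latPt d 3 a))
      have h4 : L * 1 ≤ L * (φ (latPt d 3 a) - φ (latPt d 3 b)) :=
        mul_le_mul_of_nonneg_left h1 hL0
      nlinarith
    · have hbB : b ∈ B := by
        rcases Finset.mem_union.1 hb with h' | h'
        · exact h'
        · exact absurd h' hbZ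
      have h1 := hu b hbB hne
      have h2 : 0 ≤ L * (φ (latPt d 3 a) - φ (latPt d 3 b)) := mul_nonneg hL0 (hφ1 b)
      nlinarith

end Pool.Agent.MP_f22ace_co.Trap
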