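import Pool.Agent.Lib_MP_f22ace_co.HOne

/-!
# A trap in the graph `Λ(d,3)`: basic definitions
-/

set_option autoImplicit false

namespace Pool.Agent.MP_f22ace_co.Trap

open Finset

/-- Lattice points of the cube `[0,3]^d`. -/
abbrev Pt (d : ℕ) := Fin d → Fin (3 + 1)

variable {d : ℕ}

/-- The inner coordinates of a lattice point of `[0,3]^d`: those equal to `1` or `2`. -/
def inn (x : Pt d) : Finset (Fin d) := univ.filter (fun i => x i = 1 ∨ x i = 2)

/-- The coordinates in which `x` and `y` agree and are `0` or `3`. -/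
def ag (x y : Pt d) : Finset (Fin d) := univ.filter (fun i => x i = y i ∧ (x i = 0 ∨ x i = 3))

/-- The coordinates in which `x`, `y` and `z` agree and are `0` or `3`. -/
def ag3 (x y z : Pt d) : Finset (Fin d) :=
  univ.filter (fun i => x i = y i ∧ x i = z i ∧ (x i = 0 ∨ x i = 3))

/-- `y` lies in the smallest face of the cube containing `x`. -/
def fc (x y : Pt d) : Prop := ∀ i, (x i = 0 ∨ x i = 3) → y i = x i

/-- The coordinates in which `x` and `y` differ. -/
def df (x y : Pt d) : Finset (Fin d) := univ.filter (fun i => x i ≠ y i)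

/-- Convex position, with linear functionals. -/
def CP (A : Finset (Pt d)) : Prop :=
  ∀ a ∈ A, ∃ f : (Fin d → ℝ) →ₗ[ℝ] ℝ, ∀ b ∈ A, b ≠ a → f (latPt d 3 b) < f (latPt d 3 a)

/-- The trap: sets in convex position whose points have `m` or `m - 1` inner coordinates, such that
no three different points with `m - 1` inner coordinates lie in a common face of
dimension `3m`. -/
def InTrap (m : ℕ) (A : Finset (Pt d)) : Prop :=
  CP A ∧ (∀ a ∈ A, (inn a).card = m ∨ (inn a).card + 1 = m) ∧
    ∀ x ∈ A, ∀ y ∈ A, ∀ z ∈ A, (inn x).card + 1 = m → (inn y).card + 1 = m →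
      (inn z).card + 1 = m → x ≠ y → x ≠ z → y ≠ z → (ag3 x y z).card + 3 * m < d

open Classical in
/-- The trap, as a finset of finsets. -/
noncomputable def trap (d m : ℕ) : Finset (Finset (Pt d)) := univ.filter (InTrap m)

open Classical in
/-- The trap, as a set of vertices of `Λ(d,3)`. -/
noncomputable def trapP (d m : ℕ) : Finset (LatticePolytope d 3) :=
  univ.filter (fun P => InTrap m (code P))

end Pool.Agent.MP_f22ace_co.Trap
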