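import Pool.Agent.TrapF22.Sets

/-!
# A trap in the graph `Λ(d,3)`: the members with a bad point are rare
-/

set_option autoImplicit false

namespace Pool.Agent.MP_f22ace_co.Trap

open Finset

variable {d : ℕ}

/-- For a fixed point `x` with `m + 1` inner coordinates and a fixed set `R` of points of the face
of `x`, few members of the trap have no pair around `x`. -/
lemma card_bad_one_le {m k : ℕ} (x : Pt d) (hx : (inn x).card = m + 1) (hk : 2 * k ≤ m + 1)
    (R : Finset (Pt d)) (G : Finset (Finset (Pt d)))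
    (hG : ∀ A ∈ G, InTrap m A ∧ Bad A x ∧
      A.filter (fun y => (inn y).card + 1 = m ∧ fc x y) = R) :
    (G.card : ℝ) ≤ (3 / 4) ^ (k * k) * (trap d m).card := by
  classical
  obtain ⟨U1, hU1, hc1⟩ := Finset.exists_subset_card_eq (s := inn x) (n := k) (by omega)
  have hcs := Finset.card_sdiff_add_card_eq_card hU1
  obtain ⟨U2, hU2, hc2⟩ := Finset.exists_subset_card_eq (s := inn x \ U1) (n := k) (by omega)
  have hne : ∀ a ∈ U1, ∀ b ∈ U2, a ≠ b := by
    rintro a ha b hb rfl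
    exact (Finset.mem_sdiff.1 (hU2 hb)).2 ha
  have h1 : ∀ a ∈ U1, a ∈ inn x := fun a ha => hU1 ha
  have h2 : ∀ b ∈ U2, b ∈ inn x := fun b hb => (Finset.mem_sdiff.1 (hU2 hb)).1
  have hcard : Fintype.card (U1 × U2) = k * k := by
    rw [Fintype.card_prod, Fintype.card_coe, Fintype.card_coe, hc1, hc2]
  rw [← hcard]
  refine count_bad R (fun i : U1 × U2 => psh x i.1 i.2) (fun i : U1 × U2 => psh x i.2 i.1)
    ?_ ?_ ?_ G ?_
  · intro i j hij
    rcases i with ⟨⟨a, ha⟩, ⟨b, hb⟩⟩ | ⟨⟨a, ha⟩, ⟨b, hb⟩⟩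
    · rcases j with ⟨⟨a', ha'⟩, ⟨b', hb'⟩⟩ | ⟨⟨a', ha'⟩, ⟨b', hb'⟩⟩
      · simp only [Sum.elim_inl] at hij
        obtain ⟨e1, e2⟩ := psh_inj (h1 a ha) (h2 b hb) (hne a ha b hb) (h1 a' ha') (h2 b' hb')
          (hne a' ha' b' hb') hij
        subst e1
        subst e2
        rfl
      · simp only [Sum.elim_inl, Sum.elim_inr] at hij
        obtain ⟨e1, e2⟩ := psh_inj (h1 a ha) (h2 b hb) (hne a ha b hb) (h2 b' hb') (h1 a' ha')
          (hne a' ha' b' hb').symm hij
        exact absurd e1 (hne a ha b' hb')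
    · rcases j with ⟨⟨a', ha'⟩, ⟨b', hb'⟩⟩ | ⟨⟨a', ha'⟩, ⟨b', hb'⟩⟩
      · simp only [Sum.elim_inl, Sum.elim_inr] at hij
        obtain ⟨e1, e2⟩ := psh_inj (h2 b hb) (h1 a ha) (hne a ha b hb).symm (h1 a' ha')
          (h2 b' hb') (hne a' ha' b' hb') hij
        exact absurd e1.symm (hne a' ha' b hb)
      · simp only [Sum.elim_inr] at hij
        obtain ⟨e1, e2⟩ := psh_inj (h2 b hb) (h1 a ha) (hne a ha b hb).symm (h2 b' hb')
          (h1 a' ha') (hne a' ha' b' hb').symm hij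
        subst e1
        subst e2
        rfl
  · rintro ⟨⟨a, ha⟩, ⟨b, hb⟩⟩
    exact card_inn_psh hx (h1 a ha) (h2 b hb) (hne a ha b hb)
  · rintro ⟨⟨a, ha⟩, ⟨b, hb⟩⟩
    exact card_inn_psh hx (h2 b hb) (h1 a ha) (hne a ha b hb).symm
  · intro A hA
    obtain ⟨hT, hbad, hR⟩ := hG A hA
    refine ⟨hT, ?_, ?_, ?_⟩
    · rw [← hR]
      exact Finset.filter_subset _ _
    · rintro ⟨⟨a, ha⟩, ⟨b, hb⟩⟩
      exact hbad a (h1 a ha) b (h2 b hb) (hne a ha b hb)
    · rintro ⟨⟨a, ha⟩, ⟨b, hb⟩⟩ y hyA hyR hym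
      have hno : ¬ fc x y := by
        intro hxy
        apply hyR
        rw [← hR, Finset.mem_filter]
        exact ⟨hyA, hym, hxy⟩
      exact ⟨fun h => hno (fc_of_fc_psh (h1 a ha) (h2 b hb) h),
        fun h => hno (fc_of_fc_psh (h2 b hb) (h1 a ha) h)⟩

lemma card_badAll_le {m k K : ℕ} (hm : 1 ≤ m) (hk : 2 * k ≤ m + 1)
    (hK : ∀ (x : Pt d) (t : ℕ), (smallR m t x).card ≤ K ^ t) :
    ((badAll d m).card : ℝ) ≤ 4 ^ d * (K : ℝ) ^ 2 * (3 / 4) ^ (k * k) * (trap d m).card := by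
  classical
  set X : Finset (Pt d) := univ.filter (fun x => (inn x).card = m + 1) with hX
  let G : Pt d → Finset (Pt d) → Finset (Finset (Pt d)) := fun x R =>
    (trap d m).filter (fun A => Bad A x ∧ A.filter (fun y => (inn y).card + 1 = m ∧ fc x y) = R)
  have hsub : badAll d m ⊆ X.biUnion (fun x => (smallR m 2 x).biUnion (fun R => G x R)) := by
    intro A hA
    rw [badAll, Finset.mem_filter] at hA
    obtain ⟨hAt, x, hx, hbad⟩ := hA
    rw [Finset.mem_biUnion]
    refine ⟨x, ?_, ?_⟩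
    · rw [hX, Finset.mem_filter]
      exact ⟨Finset.mem_univ _, hx⟩
    · rw [Finset.mem_biUnion]
      refine ⟨A.filter (fun y => (inn y).card + 1 = m ∧ fc x y), ?_, ?_⟩
      · rw [smallR, Finset.mem_filter, Finset.mem_powerset]
        refine ⟨?_, card_face_le_two (mem_trap.1 hAt) hx hm⟩
        intro y hy
        rw [Finset.mem_filter] at hy
        rw [nearX, Finset.mem_filter]
        refine ⟨Finset.mem_univ _, ?_⟩
        have hdf : df x y ⊆ inn x := by
          intro i hi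
          rw [df, Finset.mem_filter] at hi
          by_contra hcon
          exact hi.2 (hy.2.2 i (not_mem_inn.1 hcon)).symm
        have := Finset.card_le_card hdf
        omega
      · rw [Finset.mem_filter]
        exact ⟨hAt, hbad, rfl⟩
  have hone : ∀ x ∈ X, ∀ R ∈ smallR m 2 x,
      ((G x R).card : ℝ) ≤ (3 / 4) ^ (k * k) * (trap d m).card := by
    intro x hx R _
    rw [hX, Finset.mem_filter] at hx
    refine card_bad_one_le x hx.2 hk R (G x R) ?_
    intro A hA
    rw [Finset.mem_filter] at hA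
    exact ⟨mem_trap.1 hA.1, hA.2.1, hA.2.2⟩
  have hpos : (0 : ℝ) ≤ (3 / 4) ^ (k * k) * (trap d m).card := by positivity
  have htwo : ∀ x ∈ X, (((smallR m 2 x).biUnion (fun R => G x R)).card : ℝ) ≤
      (K : ℝ) ^ 2 * ((3 / 4) ^ (k * k) * (trap d m).card) := by
    intro x hx
    refine (union_bound _ _ _ (hone x hx)).trans ?_
    refine mul_le_mul_of_nonneg_right ?_ hpos
    exact_mod_cast hK x 2
  have hcX : (X.card : ℝ) ≤ 4 ^ d := by
    have h1 : X.card ≤ 4 ^ d := by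
      refine (Finset.card_le_univ _).trans ?_
      rw [Fintype.card_fun, Fintype.card_fin, Fintype.card_fin]
    exact_mod_cast h1
  have hle : ((badAll d m).card : ℝ) ≤
      ((X.biUnion (fun x => (smallR m 2 x).biUnion (fun R => G x R))).card : ℝ) := by
    exact_mod_cast Finset.card_le_card hsub
  calc ((badAll d m).card : ℝ)
      ≤ ((X.biUnion (fun x => (smallR m 2 x).biUnion (fun R => G x R))).card : ℝ) := hle
    _ ≤ X.card * ((K : ℝ) ^ 2 * ((3 / 4) ^ (k * k) * (trap d m).card)) := union_bound _ _ _ htwo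
    _ ≤ 4 ^ d * ((K : ℝ) ^ 2 * ((3 / 4) ^ (k * k) * (trap d m).card)) :=
        mul_le_mul_of_nonneg_right hcX (by positivity)
    _ = 4 ^ d * (K : ℝ) ^ 2 * (3 / 4) ^ (k * k) * (trap d m).card := by ring

end Pool.Agent.MP_f22ace_co.Trap
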