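import Pool.Agent.TrapF22.Sets

/-!
# A trap in the graph `Λ(d,3)`: leaving by inserting a point with few inner coordinates
-/

set_option autoImplicit false

namespace Pool.Agent.MP_f22ace_co.Trap

open Finset

variable {d : ℕ}

lemma df_le_of_ag {x y : Pt d} {m : ℕ} (h : d ≤ (ag x y).card + m) : (df x y).card ≤ m := by
  have h1 : df x y ⊆ (ag x y)ᶜ := by
    intro i hi
    rw [mem_compl, mem_ag]
    intro h'
    exact (mem_filter.1 hi).2 h'.1
  have h2 := card_le_card h1
  rw [card_compl, Fintype.card_fin] at h2
  omega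

/-- the near points of a member of the trap form a small set of near points -/
lemma near_filter_mem_smallR {m : ℕ} {A : Finset (Pt d)} (hA : InTrap m A) (x : Pt d) :
    A.filter (fun y => (inn y).card + 1 = m ∧ d ≤ (ag x y).card + m) ∈ smallR m 2 x := by
  unfold smallR
  rw [mem_filter, mem_powerset]
  refine ⟨?_, card_near_le_two hA x⟩
  intro y hy
  rw [mem_filter] at hy
  unfold nearX
  rw [mem_filter]
  refine ⟨mem_univ _, ?_⟩
  have := df_le_of_ag hy.2.2
  omega

lemma card_exit_far_le {m k K : ℕ} (x : Pt d) (hx : (inn x).card + 2 ≤ m) (hk : 2 * k + m ≤ d + 2)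
    (hK : ∀ (x : Pt d) (t : ℕ), (smallR m t x).card ≤ K ^ t) :
    ((exitX m x).card : ℝ) ≤ (K : ℝ) ^ 2 * (3 / 4) ^ (k * k) * (trap d m).card := by
  classical
  have hO : ((inn x)ᶜ).card = d - (inn x).card := by
    rw [card_compl, Fintype.card_fin]
  have hOd : (inn x).card ≤ d := by
    have := card_le_univ (inn x)
    rwa [Fintype.card_fin] at this
  obtain ⟨T0, hT0, hT0c⟩ := exists_subset_card_eq
    (s := (inn x)ᶜ) (n := m - 2 - (inn x).card) (by omega)
  have hO2 : ((inn x)ᶜ \ T0).card = d - (inn x).card - (m - 2 - (inn x).card) := by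
    rw [card_sdiff_of_subset hT0, hO, hT0c]
  obtain ⟨U1, hU1, hU1c⟩ := exists_subset_card_eq (s := (inn x)ᶜ \ T0) (n := k) (by omega)
  have hO3 : (((inn x)ᶜ \ T0) \ U1).card = d - (inn x).card - (m - 2 - (inn x).card) - k := by
    rw [card_sdiff_of_subset hU1, hO2, hU1c]
  obtain ⟨U2, hU2, hU2c⟩ := exists_subset_card_eq (s := ((inn x)ᶜ \ T0) \ U1) (n := k) (by omega)
  have f1 : ∀ a ∈ U1, a ∉ inn x ∧ a ∉ T0 := by
    intro a ha
    have := hU1 ha
    rw [mem_sdiff, mem_compl] at this
    exact this
  have f2 : ∀ b ∈ U2, b ∉ inn x ∧ b ∉ T0 ∧ b ∉ U1 := by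
    intro b hb
    have := hU2 hb
    rw [mem_sdiff, mem_sdiff, mem_compl] at this
    exact ⟨this.1.1, this.1.2, this.2⟩
  set T : U1 × U2 → Finset (Fin d) := fun i => insert i.1.1 (insert i.2.1 T0) with hTdef
  have hTout : ∀ i, ∀ j ∈ T i, j ∉ inn x := by
    intro i j hj
    simp only [hTdef, mem_insert] at hj
    rcases hj with h | h | h
    · rw [h]; exact (f1 _ i.1.2).1
    · rw [h]; exact (f2 _ i.2.2).1
    · have := hT0 h
      rwa [mem_compl] at this
  have hTcard : ∀ i, (T i).card = T0.card + 2 := by
    intro i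
    simp only [hTdef]
    rw [card_insert_of_notMem, card_insert_of_notMem]
    · exact (f2 _ i.2.2).2.1
    · rw [mem_insert, not_or]
      refine ⟨?_, (f1 _ i.1.2).2⟩
      intro h
      exact (f2 _ i.2.2).2.2 (h ▸ i.1.2)
  have hTm : ∀ i, (inn x).card + (T i).card = m := by
    intro i
    rw [hTcard, hT0c]
    omega
  have hTne : ∀ i, (T i).Nonempty := by
    intro i
    exact ⟨i.1.1, by simp only [hTdef, mem_insert, true_or]⟩
  have hTinj : ∀ i j, inn x ∪ T i = inn x ∪ T j → i = j := by
    intro i j h
    have h1 : T i = T j := by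
      ext a
      have h2 := Finset.ext_iff.1 h a
      rw [mem_union, mem_union] at h2
      constructor
      · intro ha
        rcases h2.1 (Or.inr ha) with h3 | h3
        · exact absurd h3 (hTout i a ha)
        · exact h3
      · intro ha
        rcases h2.2 (Or.inr ha) with h3 | h3
        · exact absurd h3 (hTout j a ha)
        · exact h3
    have ha : i.1.1 ∈ T j := by
      rw [← h1]; simp only [hTdef, mem_insert, true_or]
    have hb : i.2.1 ∈ T j := by
      rw [← h1]; simp only [hTdef, mem_insert, true_or, or_true]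
    simp only [hTdef, mem_insert] at ha hb
    have ha' : i.1.1 = j.1.1 := by
      rcases ha with h3 | h3 | h3
      · exact h3
      · exact absurd (h3 ▸ i.1.2) (f2 _ j.2.2).2.2
      · exact absurd h3 (f1 _ i.1.2).2
    have hb' : i.2.1 = j.2.1 := by
      rcases hb with h3 | h3 | h3
      · exact absurd (h3 ▸ j.1.2) (f2 _ i.2.2).2.2
      · exact h3
      · exact absurd h3 (f2 _ i.2.2).2.1
    exact Prod.ext (Subtype.ext ha') (Subtype.ext hb')
  set p : U1 × U2 → Pt d := fun i => pul1 x (T i) with hp
  set q : U1 × U2 → Pt d := fun i => pul2 x (T i) with hq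
  have hinj : Function.Injective (Sum.elim p q) := by
    intro i j hij
    rcases i with i | i <;> rcases j with j | j
    · simp only [Sum.elim_inl] at hij
      have h1 := congrArg inn hij
      simp only [hp] at h1
      rw [inn_pul1 (hTout i), inn_pul1 (hTout j)] at h1
      rw [hTinj i j h1]
    · exfalso
      simp only [Sum.elim_inl, Sum.elim_inr] at hij
      have h1 := congrArg inn hij
      simp only [hp, hq] at h1
      rw [inn_pul1 (hTout i), inn_pul2 (hTout j)] at h1
      have h2 := hTinj i j h1
      subst h2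
      exact pul2_ne (hTout i) (hTne i) hij.symm
    · exfalso
      simp only [Sum.elim_inl, Sum.elim_inr] at hij
      have h1 := congrArg inn hij
      simp only [hp, hq] at h1
      rw [inn_pul2 (hTout i), inn_pul1 (hTout j)] at h1
      have h2 := hTinj i j h1
      subst h2
      exact pul2_ne (hTout i) (hTne i) hij
    · simp only [Sum.elim_inr] at hij
      have h1 := congrArg inn hij
      simp only [hq] at h1
      rw [inn_pul2 (hTout i), inn_pul2 (hTout j)] at h1
      rw [hTinj i j h1]
  set G : Finset (Pt d) → Finset (Finset (Pt d)) := fun R => (exitX m x).filter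
    (fun A => A.filter (fun y => (inn y).card + 1 = m ∧ d ≤ (ag x y).card + m) = R) with hG
  have hcover : exitX m x ⊆ (smallR m 2 x).biUnion G := by
    intro A hA
    rw [mem_biUnion]
    have hA' := hA
    unfold exitX at hA'
    rw [mem_filter, mem_trap] at hA'
    refine ⟨_, near_filter_mem_smallR hA'.1 x, ?_⟩
    simp only [hG, mem_filter]
    exact ⟨hA, trivial⟩
  have hcount : ∀ R ∈ smallR m 2 x,
      ((G R).card : ℝ) ≤ (3 / 4) ^ (k * k) * (trap d m).card := by
    intro R _
    have h := count_bad (m := m) R p q hinj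
      (fun i => by
        simp only [hp]
        rw [inn_pul1 (hTout i), card_union_out (hTout i), hTm i])
      (fun i => by
        simp only [hq]
        rw [inn_pul2 (hTout i), card_union_out (hTout i), hTm i]) (G R) ?_
    · rw [Fintype.card_prod, Fintype.card_coe, Fintype.card_coe, hU1c, hU2c] at h
      exact h
    · intro A hA
      simp only [hG, mem_filter] at hA
      obtain ⟨hA1, hA2⟩ := hA
      unfold exitX at hA1
      rw [mem_filter, mem_trap] at hA1
      obtain ⟨hT, hxA, hCP, _⟩ := hA1
      refine ⟨hT, ?_, ?_, ?_⟩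
      · rw [← hA2]
        exact filter_subset _ _
      · rintro i ⟨h1, h2⟩
        exact not_CP_of_mid hCP (mem_insert_of_mem h1) (mem_insert_self _ _)
          (mem_insert_of_mem h2) (pul1_ne (hTout i) (hTne i)) (pul2_ne (hTout i) (hTne i))
          (pul_mid (hTout i))
      · intro i y hy hyR hym
        have key : ∀ z : Pt d, inn z = inn x ∪ T i → (∀ j, j ∉ T i → z j = x j) → ¬ fc z y := by
          intro z hz hzx hfc
          apply hyR
          rw [← hA2, mem_filter]
          refine ⟨hy, hym, ?_⟩
          have := ag_of_fc_pul hz hzx hfc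
          rwa [hTm i] at this
        refine ⟨key _ (inn_pul1 (hTout i)) ?_, key _ (inn_pul2 (hTout i)) ?_⟩
        · intro j hj
          change pul1 x (T i) j = x j
          unfold pul1
          rw [if_neg hj]
        · intro j hj
          change pul2 x (T i) j = x j
          unfold pul2
          rw [if_neg hj]
  have h1 : ((exitX m x).card : ℝ) ≤ (((smallR m 2 x).biUnion G).card : ℝ) := by
    exact_mod_cast card_le_card hcover
  have h2 := union_bound (smallR m 2 x) G _ hcount
  have h3 : ((smallR m 2 x).card : ℝ) ≤ (K : ℝ) ^ 2 := by exact_mod_cast hK x 2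
  calc ((exitX m x).card : ℝ) ≤ _ := h1
    _ ≤ ((smallR m 2 x).card : ℝ) * ((3 / 4) ^ (k * k) * (trap d m).card) := h2
    _ ≤ (K : ℝ) ^ 2 * ((3 / 4) ^ (k * k) * (trap d m).card) := by gcongr
    _ = (K : ℝ) ^ 2 * (3 / 4) ^ (k * k) * (trap d m).card := by ring

end Pool.Agent.MP_f22ace_co.Trap
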