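import Pool.Agent.TrapF22.Sets

/-!
# A trap in the graph `Λ(d,3)`: leaving by inserting a point with `m - 1` inner coordinates
-/

set_option autoImplicit false

namespace Pool.Agent.MP_f22ace_co.Trap

open Finset

variable {d : ℕ}

lemma df_le_of_ag3 {x y : Pt d} {a : ℕ} (h : d ≤ (ag x y).card + a) : (df x y).card ≤ a := by
  have h1 : df x y ⊆ (ag x y)ᶜ := by
    intro i hi
    rw [mem_compl, mem_ag]
    intro h'
    exact (mem_filter.1 hi).2 h'.1
  have h2 := card_le_card h1
  rw [card_compl, Fintype.card_fin] at h2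
  omega

lemma df_triangle (x y z : Pt d) : (df x z).card ≤ (df x y).card + (df y z).card := by
  have h : df x z ⊆ df x y ∪ df y z := by
    intro i hi
    rw [mem_union]
    by_contra hcon
    rw [not_or] at hcon
    unfold df at hi hcon
    simp only [mem_filter, mem_univ, true_and, not_not] at hi hcon
    exact hi (hcon.1.trans hcon.2)
  exact (card_le_card h).trans (card_union_le _ _)

lemma ag3_sub_left (x y z : Pt d) : ag3 x y z ⊆ ag x y := by
  intro i hi
  rw [mem_ag3] at hi
  rw [mem_ag]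
  exact ⟨hi.1, hi.2.2⟩

lemma ag3_sub_right (x y z : Pt d) : ag3 x y z ⊆ ag x z := by
  intro i hi
  rw [mem_ag3] at hi
  rw [mem_ag]
  exact ⟨hi.2.1, hi.2.2⟩

lemma ag3_swap (x y z : Pt d) : ag3 y x z = ag3 x y z := by
  ext i
  rw [mem_ag3, mem_ag3]
  constructor
  · rintro ⟨h1, h2, h3⟩
    exact ⟨h1.symm, h1.symm.trans h2, h1 ▸ h3⟩
  · rintro ⟨h1, h2, h3⟩
    exact ⟨h1.symm, h1.symm.trans h2, h1 ▸ h3⟩

lemma ag3_rot (x y z : Pt d) : ag3 y z x = ag3 x y z := by
  ext i
  rw [mem_ag3, mem_ag3]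
  constructor
  · rintro ⟨h1, h2, h3⟩
    exact ⟨h2.symm, h2.symm.trans h1, h2 ▸ h3⟩
  · rintro ⟨h1, h2, h3⟩
    exact ⟨h1.symm.trans h2, h1.symm, h1 ▸ h3⟩

/-- The pair of points which makes it impossible to insert `x` and stay in the trap. -/
lemma exists_pair_of_exit {m : ℕ} {x : Pt d} {A : Finset (Pt d)} (hx : (inn x).card + 1 = m)
    (hT : InTrap m A) (hCP : CP (insert x A)) (hno : ¬ InTrap m (insert x A)) :
    ∃ y z : Pt d, y ∈ A ∧ z ∈ A ∧ y ≠ z ∧ (inn y).card + 1 = m ∧ (inn z).card + 1 = m ∧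
      d ≤ (ag3 x y z).card + 3 * m := by
  by_contra hcon
  push Not at hcon
  apply hno
  refine ⟨hCP, ?_, ?_⟩
  · intro a ha
    rcases mem_insert.1 ha with h | h
    · rw [h]; exact Or.inr hx
    · exact hT.2.1 a h
  · intro u hu v hv w hw hu1 hv1 hw1 huv huw hvw
    rcases mem_insert.1 hu with h | hu2
    · subst h
      have hv2 : v ∈ A := by
        rcases mem_insert.1 hv with h | h
        · exact absurd h.symm huv
        · exact h
      have hw2 : w ∈ A := by
        rcases mem_insert.1 hw with h | h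
        · exact absurd h.symm huw
        · exact h
      exact hcon v w hv2 hw2 hvw hv1 hw1
    · rcases mem_insert.1 hv with h | hv2
      · subst h
        have hw2 : w ∈ A := by
          rcases mem_insert.1 hw with h | h
          · exact absurd h.symm hvw
          · exact h
        have := hcon u w hu2 hw2 huw hu1 hw1
        rwa [← ag3_swap] at this
      · rcases mem_insert.1 hw with h | hw2
        · subst h
          have := hcon u v hu2 hv2 huv hu1 hv1
          rwa [← ag3_rot] at this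
        · exact hT.2.2 u hu2 v hv2 w hw2 hu1 hv1 hw1 huv huw hvw

/-- near to one of three points -/
def nr3 (m : ℕ) (x y z u : Pt d) : Prop := (inn u).card + 1 = m ∧
  (d ≤ (ag x u).card + m ∨ d ≤ (ag y u).card + m ∨ d ≤ (ag z u).card + m)

open Classical in
lemma nr3_filter_mem_smallR {m : ℕ} {A : Finset (Pt d)} (hA : InTrap m A) {x y z : Pt d}
    (hJ : d ≤ (ag3 x y z).card + 3 * m) :
    A.filter (fun u => nr3 m x y z u) ∈ smallR m 6 x := by
  have hxy : (df x y).card ≤ 3 * m :=
    df_le_of_ag3 (hJ.trans (Nat.add_le_add_right (card_le_card (ag3_sub_left x y z)) _))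
  have hxz : (df x z).card ≤ 3 * m :=
    df_le_of_ag3 (hJ.trans (Nat.add_le_add_right (card_le_card (ag3_sub_right x y z)) _))
  unfold smallR
  rw [mem_filter, mem_powerset]
  constructor
  · intro u hu
    rw [mem_filter] at hu
    unfold nearX
    rw [mem_filter]
    refine ⟨mem_univ _, ?_⟩
    rcases hu.2.2 with h | h | h
    · have := df_le_of_ag3 h
      omega
    · have h1 := df_le_of_ag3 h
      have h2 := df_triangle x y u
      omega
    · have h1 := df_le_of_ag3 h
      have h2 := df_triangle x z u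
      omega
  · have hsub : A.filter (fun u => nr3 m x y z u) ⊆
        (A.filter (fun u => (inn u).card + 1 = m ∧ d ≤ (ag x u).card + m) ∪
          A.filter (fun u => (inn u).card + 1 = m ∧ d ≤ (ag y u).card + m)) ∪
          A.filter (fun u => (inn u).card + 1 = m ∧ d ≤ (ag z u).card + m) := by
      intro u hu
      rw [mem_filter] at hu
      rw [mem_union, mem_union, mem_filter, mem_filter, mem_filter]
      rcases hu.2.2 with h | h | h
      · exact Or.inl (Or.inl ⟨hu.1, hu.2.1, h⟩)
      · exact Or.inl (Or.inr ⟨hu.1, hu.2.1, h⟩)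
      · exact Or.inr ⟨hu.1, hu.2.1, h⟩
    have h1 := card_le_card hsub
    have h2 := card_union_le (A.filter (fun u => (inn u).card + 1 = m ∧ d ≤ (ag x u).card + m) ∪
          A.filter (fun u => (inn u).card + 1 = m ∧ d ≤ (ag y u).card + m))
          (A.filter (fun u => (inn u).card + 1 = m ∧ d ≤ (ag z u).card + m))
    have h3 := card_union_le (A.filter (fun u => (inn u).card + 1 = m ∧ d ≤ (ag x u).card + m))
          (A.filter (fun u => (inn u).card + 1 = m ∧ d ≤ (ag y u).card + m))
    have h4 := card_near_le_two hA x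
    have h5 := card_near_le_two hA y
    have h6 := card_near_le_two hA z
    omega

open Classical in
/-- the members of the trap with a fixed obstruction to the insertion of `x` -/
noncomputable def G3 (m : ℕ) (x : Pt d) (t : (Pt d × Pt d) × Finset (Pt d)) :
    Finset (Finset (Pt d)) :=
  (exitX m x).filter (fun A => t.1.1 ∈ A ∧ t.1.2 ∈ A ∧ t.1.1 ≠ t.1.2 ∧
    (inn t.1.1).card + 1 = m ∧ (inn t.1.2).card + 1 = m ∧ d ≤ (ag3 x t.1.1 t.1.2).card + 3 * m ∧
    A.filter (fun u => nr3 m x t.1.1 t.1.2 u) = t.2)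

lemma card_G3_le {m : ℕ} (x : Pt d) (hx : (inn x).card + 1 = m)
    (t : (Pt d × Pt d) × Finset (Pt d)) :
    ((G3 m x t).card : ℝ) ≤ (3 / 4) ^ (3 * (d - 3 * m)) * (trap d m).card := by
  classical
  obtain ⟨⟨y, z⟩, R⟩ := t
  rcases (G3 m x ((y, z), R)).eq_empty_or_nonempty with h0 | ⟨A0, hA0⟩
  · rw [h0]
    simp only [card_empty, Nat.cast_zero]
    positivity
  unfold G3 at hA0
  rw [mem_filter] at hA0
  obtain ⟨hA0x, hy0, hz0, hyz, hy1, hz1, hJ, -⟩ := hA0
  simp only at hy0 hz0 hyz hy1 hz1 hJ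
  unfold exitX at hA0x
  rw [mem_filter] at hA0x
  have hxy : x ≠ y := by
    rintro rfl
    exact hA0x.2.1 hy0
  have hxz : x ≠ z := by
    rintro rfl
    exact hA0x.2.1 hz0
  set v : Fin 3 → Pt d := ![x, y, z] with hv
  have hvinn : ∀ s, (inn (v s)).card + 1 = m := by
    intro s
    fin_cases s
    · exact hx
    · exact hy1
    · exact hz1
  have hvinj : ∀ s s', v s = v s' → s = s' := by
    intro s s' h
    fin_cases s <;> fin_cases s' <;> first
      | rfl
      | exact absurd h hxy
      | exact absurd h hxz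
      | exact absurd h hyz
      | exact absurd h.symm hxy
      | exact absurd h.symm hxz
      | exact absurd h.symm hyz
  have hvJ : ∀ s, ∀ i ∈ ag3 x y z, v s i = x i := by
    intro s i hi
    rw [mem_ag3] at hi
    fin_cases s
    · rfl
    · exact hi.1.symm
    · exact hi.2.1.symm
  have hJout : ∀ i ∈ ag3 x y z, x i = 0 ∨ x i = 3 := by
    intro i hi
    rw [mem_ag3] at hi
    exact hi.2.2
  have hT : ∀ s, ∀ i ∈ ag3 x y z, ∀ j ∈ ({i} : Finset (Fin d)), j ∉ inn (v s) := by
    intro s i hi j hj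
    rw [mem_singleton] at hj
    subst hj
    rw [not_mem_inn, hvJ s j hi]
    exact hJout j hi
  have hne : ∀ i : Fin d, ({i} : Finset (Fin d)).Nonempty := fun i => singleton_nonempty i
  set p : Fin 3 × ag3 x y z → Pt d := fun i => pul1 (v i.1) {i.2.1} with hp
  set q : Fin 3 × ag3 x y z → Pt d := fun i => pul2 (v i.1) {i.2.1} with hq
  have hidx : ∀ i j : Fin 3 × ag3 x y z,
      inn (v i.1) ∪ {i.2.1} = inn (v j.1) ∪ {j.2.1} → i.2.1 = j.2.1 := by
    intro i j h
    have h1 : i.2.1 ∈ inn (v j.1) ∪ {j.2.1} := by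
      rw [← h, mem_union, mem_singleton]
      exact Or.inr rfl
    rw [mem_union, mem_singleton] at h1
    rcases h1 with h1 | h1
    · exact absurd h1 (hT j.1 i.2.1 i.2.2 i.2.1 (mem_singleton_self _))
    · exact h1
  have hsame : ∀ (f : Fin (3 + 1) → Fin (3 + 1)) (i j : Fin 3 × ag3 x y z), i.2.1 = j.2.1 →
      (∀ l, l ≠ i.2.1 → v i.1 l = v j.1 l) → i = j := by
    intro f i j h h2
    have h3 : v i.1 = v j.1 := by
      funext l
      by_cases hl : l = i.2.1
      · subst hl
        rw [hvJ i.1 _ i.2.2, hvJ j.1 _ i.2.2]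
      · exact h2 l hl
    exact Prod.ext (hvinj _ _ h3) (Subtype.ext h)
  have hinj : Function.Injective (Sum.elim p q) := by
    intro i j hij
    rcases i with i | i <;> rcases j with j | j
    · simp only [Sum.elim_inl] at hij
      have h1 := congrArg inn hij
      simp only [hp] at h1
      rw [inn_pul1 (hT i.1 i.2.1 i.2.2), inn_pul1 (hT j.1 j.2.1 j.2.2)] at h1
      have h2 := hidx i j h1
      rw [hsame id i j h2 ?_]
      intro l hl
      have h3 := congrFun hij l
      simp only [hp, pul1, mem_singleton] at h3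
      rw [if_neg hl, if_neg (h2 ▸ hl)] at h3
      exact h3
    · exfalso
      simp only [Sum.elim_inl, Sum.elim_inr] at hij
      have h1 := congrArg inn hij
      simp only [hp, hq] at h1
      rw [inn_pul1 (hT i.1 i.2.1 i.2.2), inn_pul2 (hT j.1 j.2.1 j.2.2)] at h1
      have h2 := hidx i j h1
      have h3 := congrFun hij i.2.1
      simp only [hp, hq, pul1, pul2, mem_singleton] at h3
      rw [if_true, if_pos h2, hvJ i.1 _ i.2.2, hvJ j.1 _ i.2.2] at h3
      exact pl1_ne_pl2 (hJout _ i.2.2) h3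
    · exfalso
      simp only [Sum.elim_inl, Sum.elim_inr] at hij
      have h1 := congrArg inn hij
      simp only [hp, hq] at h1
      rw [inn_pul2 (hT i.1 i.2.1 i.2.2), inn_pul1 (hT j.1 j.2.1 j.2.2)] at h1
      have h2 := hidx i j h1
      have h3 := congrFun hij i.2.1
      simp only [hp, hq, pul1, pul2, mem_singleton] at h3
      rw [if_true, if_pos h2, hvJ i.1 _ i.2.2, hvJ j.1 _ i.2.2] at h3
      exact pl1_ne_pl2 (hJout _ i.2.2) h3.symm
    · simp only [Sum.elim_inr] at hij
      have h1 := congrArg inn hij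
      simp only [hq] at h1
      rw [inn_pul2 (hT i.1 i.2.1 i.2.2), inn_pul2 (hT j.1 j.2.1 j.2.2)] at h1
      have h2 := hidx i j h1
      rw [hsame id i j h2 ?_]
      intro l hl
      have h3 := congrFun hij l
      simp only [hq, pul2, mem_singleton] at h3
      rw [if_neg hl, if_neg (h2 ▸ hl)] at h3
      exact h3
  have h := count_bad (m := m) R p q hinj
    (fun i => by
      simp only [hp]
      rw [inn_pul1 (hT i.1 i.2.1 i.2.2), card_union_out (hT i.1 i.2.1 i.2.2), card_singleton]
      exact hvinn i.1)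
    (fun i => by
      simp only [hq]
      rw [inn_pul2 (hT i.1 i.2.1 i.2.2), card_union_out (hT i.1 i.2.1 i.2.2), card_singleton]
      exact hvinn i.1) (G3 m x ((y, z), R)) ?_
  · rw [Fintype.card_prod, Fintype.card_fin, Fintype.card_coe] at h
    have h4 : ((3 : ℝ) / 4) ^ (3 * (ag3 x y z).card) ≤ (3 / 4) ^ (3 * (d - 3 * m)) :=
      pow_le_pow_of_le_one (by norm_num) (by norm_num) (by omega)
    refine h.trans ?_
    gcongr
  · intro A hA
    unfold G3 at hA
    rw [mem_filter] at hA
    obtain ⟨hA1, hyA, hzA, -, -, -, -, hR⟩ := hA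
    simp only at hyA hzA hR
    unfold exitX at hA1
    rw [mem_filter, mem_trap] at hA1
    obtain ⟨hTr, hxA, hCP, -⟩ := hA1
    have hvA : ∀ s, v s ∈ insert x A := by
      intro s
      fin_cases s
      · exact mem_insert_self _ _
      · exact mem_insert_of_mem hyA
      · exact mem_insert_of_mem hzA
    refine ⟨hTr, ?_, ?_, ?_⟩
    · rw [← hR]
      exact filter_subset _ _
    · rintro i ⟨h1, h2⟩
      exact not_CP_of_mid hCP (mem_insert_of_mem h1) (hvA i.1)
        (mem_insert_of_mem h2) (pul1_ne (hT i.1 i.2.1 i.2.2) (hne _))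
        (pul2_ne (hT i.1 i.2.1 i.2.2) (hne _)) (pul_mid (hT i.1 i.2.1 i.2.2))
    · intro i u hu huR hum
      have key : ∀ w : Pt d, inn w = inn (v i.1) ∪ {i.2.1} →
          (∀ j, j ∉ ({i.2.1} : Finset (Fin d)) → w j = v i.1 j) → ¬ fc w u := by
        intro w hw hwx hfc
        apply huR
        rw [← hR, mem_filter]
        refine ⟨hu, hum, ?_⟩
        have h5 := ag_of_fc_pul hw hwx hfc
        rw [card_singleton, hvinn i.1] at h5
        generalize i.1 = s at h5
        fin_cases s
        · exact Or.inl h5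
        · exact Or.inr (Or.inl h5)
        · exact Or.inr (Or.inr h5)
      refine ⟨key _ (inn_pul1 (hT i.1 i.2.1 i.2.2)) ?_, key _ (inn_pul2 (hT i.1 i.2.1 i.2.2)) ?_⟩
      · intro j hj
        change pul1 (v i.1) {i.2.1} j = v i.1 j
        unfold pul1
        rw [if_neg hj]
      · intro j hj
        change pul2 (v i.1) {i.2.1} j = v i.1 j
        unfold pul2
        rw [if_neg hj]

lemma card_exit_near_le {m K : ℕ} (x : Pt d) (hx : (inn x).card + 1 = m)
    (hK : ∀ (x : Pt d) (t : ℕ), (smallR m t x).card ≤ K ^ t)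
    (hK1 : ∀ x : Pt d, (nearX m x).card ≤ K) :
    ((exitX m x).card : ℝ) ≤ (K : ℝ) ^ 8 * (3 / 4) ^ (3 * (d - 3 * m)) * (trap d m).card := by
  classical
  have hcover : exitX m x ⊆ (((nearX m x) ×ˢ (nearX m x)) ×ˢ (smallR m 6 x)).biUnion
      (G3 m x) := by
    intro A hA
    have hA' := hA
    unfold exitX at hA'
    rw [mem_filter, mem_trap] at hA'
    obtain ⟨hTr, hxA, hCP, hno⟩ := hA'
    obtain ⟨y, z, hy, hz, hyz, hy1, hz1, hJ⟩ := exists_pair_of_exit hx hTr hCP hno
    have hxy : (df x y).card ≤ 3 * m :=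
      df_le_of_ag3 (hJ.trans (Nat.add_le_add_right (card_le_card (ag3_sub_left x y z)) _))
    have hxz : (df x z).card ≤ 3 * m :=
      df_le_of_ag3 (hJ.trans (Nat.add_le_add_right (card_le_card (ag3_sub_right x y z)) _))
    rw [mem_biUnion]
    refine ⟨((y, z), A.filter (fun u => nr3 m x y z u)), ?_, ?_⟩
    · rw [mem_product, mem_product]
      refine ⟨⟨?_, ?_⟩, nr3_filter_mem_smallR hTr hJ⟩
      · unfold nearX
        rw [mem_filter]
        exact ⟨mem_univ _, by simp only; omega⟩
      · unfold nearX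
        rw [mem_filter]
        exact ⟨mem_univ _, by simp only; omega⟩
    · unfold G3
      rw [mem_filter]
      exact ⟨hA, hy, hz, hyz, hy1, hz1, hJ, rfl⟩
  have h1 : ((exitX m x).card : ℝ) ≤
      (((((nearX m x) ×ˢ (nearX m x)) ×ˢ (smallR m 6 x)).biUnion (G3 m x)).card : ℝ) := by
    exact_mod_cast card_le_card hcover
  have h2 := union_bound (((nearX m x) ×ˢ (nearX m x)) ×ˢ (smallR m 6 x)) (G3 m x) _
    (fun t _ => card_G3_le x hx t)
  have h3 : (((((nearX m x) ×ˢ (nearX m x)) ×ˢ (smallR m 6 x)).card : ℕ) : ℝ) ≤ (K : ℝ) ^ 8 := by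
    have h4 : (((nearX m x) ×ˢ (nearX m x)) ×ˢ (smallR m 6 x)).card ≤ K ^ 8 := by
      rw [card_product, card_product]
      calc (nearX m x).card * (nearX m x).card * (smallR m 6 x).card
          ≤ K * K * K ^ 6 := Nat.mul_le_mul (Nat.mul_le_mul (hK1 x) (hK1 x)) (hK x 6)
        _ = K ^ 8 := by ring
    exact_mod_cast h4
  calc ((exitX m x).card : ℝ) ≤ _ := h1
    _ ≤ _ := h2
    _ ≤ (K : ℝ) ^ 8 * ((3 / 4) ^ (3 * (d - 3 * m)) * (trap d m).card) := by gcongr
    _ = (K : ℝ) ^ 8 * (3 / 4) ^ (3 * (d - 3 * m)) * (trap d m).card := by ring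

end Pool.Agent.MP_f22ace_co.Trap
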