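import Pool.Agent.TrapF22.Sets

/-!
# A trap in the graph `Λ(d,3)`: leaving by inserting a point with many inner coordinates
-/

set_option autoImplicit false

namespace Pool.Agent.MP_f22ace_co.Trap

open Finset

variable {d : ℕ}

lemma exit_mid {m : ℕ} (x : Pt d) (hx : (inn x).card = m) : exitX m x = ∅ := by
  classical
  rw [Finset.eq_empty_iff_forall_notMem]
  intro A hA
  simp only [exitX, Finset.mem_filter, mem_trap] at hA
  obtain ⟨hT, hxA, hCP, hn⟩ := hA
  apply hn
  refine ⟨hCP, ?_, ?_⟩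
  · intro a ha
    rcases Finset.mem_insert.1 ha with rfl | h
    · exact Or.inl hx
    · exact hT.2.1 a h
  · have hmem : ∀ a ∈ insert x A, (inn a).card + 1 = m → a ∈ A := by
      intro a ha h
      rcases Finset.mem_insert.1 ha with rfl | h'
      · omega
      · exact h'
    intro a ha b hb c hc h1 h2 h3
    exact hT.2.2 a (hmem a ha h1) b (hmem b hb h2) c (hmem c hc h3) h1 h2 h3

/-- If no point is bad, every linear functional is at least as large at some point of `A`. -/
lemma exists_ge_of_not_bad {m : ℕ} (hm : 1 ≤ m) (A : Finset (Pt d))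
    (hA : ∀ x : Pt d, (inn x).card = m + 1 → ¬ Bad A x) (f : (Fin d → ℝ) →ₗ[ℝ] ℝ) :
    ∀ (j : ℕ) (x : Pt d), (inn x).card = m + 1 + j →
      ∃ b ∈ A, (inn b).card = m ∧ f (latPt d 3 x) ≤ f (latPt d 3 b) := by
  intro j
  induction j with
  | zero =>
    intro x hx
    have h := hA x hx
    unfold Bad at h
    push Not at h
    obtain ⟨a, ha, b, hb, hab, h1, h2⟩ := h
    have h3 := congrArg f (psh_mid ha hb hab)
    rw [map_add, map_add] at h3
    rcases le_total (f (latPt d 3 x)) (f (latPt d 3 (psh x a b))) with h4 | h4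
    · exact ⟨_, h1, card_inn_psh hx ha hb hab, h4⟩
    · refine ⟨_, h2, card_inn_psh hx hb ha hab.symm, ?_⟩
      linarith
  | succ j ih =>
    intro x hx
    have h2 : 1 < (inn x).card := by omega
    obtain ⟨a, ha, b, hb, hab⟩ := Finset.one_lt_card.1 h2
    have h3 := congrArg f (psh_mid ha hb hab)
    rw [map_add, map_add] at h3
    have hx' : (inn x).card = (m + 1 + j) + 1 := by omega
    rcases le_total (f (latPt d 3 x)) (f (latPt d 3 (psh x a b))) with h4 | h4
    · obtain ⟨c, hc, hcm, hle⟩ := ih (psh x a b) (card_inn_psh hx' ha hb hab)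
      exact ⟨c, hc, hcm, h4.trans hle⟩
    · obtain ⟨c, hc, hcm, hle⟩ := ih (psh x b a) (card_inn_psh hx' hb ha hab.symm)
      refine ⟨c, hc, hcm, ?_⟩
      linarith

lemma exit_inner_subset {m : ℕ} (hm : 1 ≤ m) (x : Pt d) (hx : m + 1 ≤ (inn x).card) :
    exitX m x ⊆ badAll d m := by
  classical
  intro A hA
  simp only [exitX, Finset.mem_filter] at hA
  obtain ⟨hT, hxA, hCP, hn⟩ := hA
  simp only [badAll, Finset.mem_filter]
  refine ⟨hT, ?_⟩
  by_contra hcon
  push Not at hcon
  obtain ⟨f, hf⟩ := hCP x (Finset.mem_insert_self x A)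
  obtain ⟨j, hj⟩ := Nat.exists_eq_add_of_le hx
  obtain ⟨b, hb, hbm, hle⟩ := exists_ge_of_not_bad hm A hcon f j x hj
  have hbx : b ≠ x := by
    rintro rfl
    exact hxA hb
  have := hf b (Finset.mem_insert_of_mem hb) hbx
  linarith

end Pool.Agent.MP_f22ace_co.Trap
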