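import Pool.Agent.TrapF22.Sets

/-!
# A trap in the graph `Λ(d,3)`: sets without a bad point are spanning
-/

set_option autoImplicit false

namespace Pool.Agent.MP_f22ace_co.Trap

open Finset

variable {d : ℕ}

lemma affine_mid_mem {S : AffineSubspace ℝ (Fin d → ℝ)} {P Q X : Fin d → ℝ} (hP : P ∈ S)
    (hQ : Q ∈ S) (h : P + Q = X + X) : X ∈ S := by
  have h1 := AffineMap.lineMap_mem (1 / 2 : ℝ) hP hQ
  have h2 : AffineMap.lineMap P Q (1 / 2 : ℝ) = X := by
    funext i
    have h3 := congrFun h i
    simp only [Pi.add_apply] at h3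
    simp only [AffineMap.lineMap_apply, vsub_eq_sub, vadd_eq_add, Pi.add_apply, Pi.smul_apply,
      Pi.sub_apply, smul_eq_mul]
    linarith
  rw [← h2]
  exact h1

lemma mem_span_of_not_bad {m : ℕ} (hm : 1 ≤ m) (A : Finset (Pt d))
    (hA : ∀ x : Pt d, (inn x).card = m + 1 → ¬ Bad A x) (j : ℕ) :
    ∀ x : Pt d, (inn x).card = m + 1 + j →
      latPt d 3 x ∈ affineSpan ℝ (latPt d 3 '' (A : Set (Pt d))) := by
  induction j with
  | zero =>
    intro x hx
    have h := hA x (by omega)
    unfold Bad at h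
    push Not at h
    obtain ⟨a, ha, b, hb, hab, h1, h2⟩ := h
    exact affine_mid_mem
      (subset_affineSpan ℝ _ (Set.mem_image_of_mem _ (Finset.mem_coe.2 h1)))
      (subset_affineSpan ℝ _ (Set.mem_image_of_mem _ (Finset.mem_coe.2 h2)))
      (psh_mid ha hb hab)
  | succ j ih =>
    intro x hx
    obtain ⟨a, ha, b, hb, hab⟩ := Finset.one_lt_card.1 (show 1 < (inn x).card by omega)
    have h1 := ih (psh x a b) (card_inn_psh (m := m + 1 + j) (by omega) ha hb hab)
    have h2 := ih (psh x b a) (card_inn_psh (m := m + 1 + j) (by omega) hb ha (Ne.symm hab))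
    exact affine_mid_mem h1 h2 (psh_mid ha hb hab)

/-- If no point with `m + 1` inner coordinates is bad, then the set is spanning. -/
lemma spanning_of_not_bad {m : ℕ} (hm : 1 ≤ m) (hd : m + 1 ≤ d) (A : Finset (Pt d))
    (hA : ∀ x : Pt d, (inn x).card = m + 1 → ¬ Bad A x) : Spanning A := by
  have key : ∀ x : Pt d, (∀ i, i ∈ inn x) →
      latPt d 3 x ∈ affineSpan ℝ (latPt d 3 '' (A : Set (Pt d))) := by
    intro x hx
    have hc : (inn x).card = m + 1 + (d - (m + 1)) := by
      have h1 : inn x = Finset.univ := Finset.eq_univ_iff_forall.2 hx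
      rw [h1, Finset.card_univ, Fintype.card_fin]
      omega
    exact mem_span_of_not_bad hm A hA _ x hc
  unfold Spanning
  set S := affineSpan ℝ (latPt d 3 '' (A : Set (Pt d))) with hS
  have hone : latPt d 3 (fun _ => 1) ∈ S := key _ (fun i => mem_inn.2 (Or.inl rfl))
  have htwo : ∀ i : Fin d, latPt d 3 (Function.update (fun _ => 1) i 2) ∈ S := by
    intro i
    apply key
    intro j
    rw [mem_inn]
    by_cases hj : j = i
    · subst hj
      right
      simp
    · left
      simp [Function.update_of_ne hj]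
  have hne : (S : Set (Fin d → ℝ)).Nonempty := ⟨_, hone⟩
  rw [← AffineSubspace.direction_eq_top_iff_of_nonempty hne, eq_top_iff,
    ← (Pi.basisFun ℝ (Fin d)).span_eq, Submodule.span_le]
  rintro v ⟨i, rfl⟩
  have h := AffineSubspace.vsub_mem_direction (htwo i) hone
  have he : latPt d 3 (Function.update (fun _ => 1) i 2) -ᵥ latPt d 3 (fun _ => 1) =
      Pi.basisFun ℝ (Fin d) i := by
    funext j
    simp only [vsub_eq_sub, Pi.sub_apply, Pi.basisFun_apply, latPt]
    by_cases hj : j = i
    · subst hj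
      rw [Function.update_self, Pi.single_eq_same, v2, v1]
      norm_num
    · rw [Function.update_of_ne hj, Pi.single_eq_of_ne hj]
      simp
  rw [he] at h
  exact h

end Pool.Agent.MP_f22ace_co.Trap
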