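import Pool.Agent.TrapF22.Sets

/-!
# A trap in the graph `Λ(d,3)`: the edges leaving the trap
-/

set_option autoImplicit false

namespace Pool.Agent.MP_f22ace_co.Trap

open Finset

variable {d : ℕ}

open Classical in
lemma code_insertion {k : ℕ} {P Q : LatticePolytope d k} (h : IsInsertion P.1 Q.1) :
    ∃ z, code Q = insert z (code P) := by
  obtain ⟨x, -, hx⟩ := h
  have hx1 : x ∈ vertexSet Q.1 := by
    rw [hx]
    exact Set.mem_insert _ _
  rw [← image_code] at hx1
  obtain ⟨z, -, rfl⟩ := hx1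
  refine ⟨z, ?_⟩
  ext w
  have h1 : w ∈ code Q ↔ latPt d k w ∈ vertexSet Q.1 := by simp [code]
  have h2 : w ∈ code P ↔ latPt d k w ∈ vertexSet P.1 := by simp [code]
  rw [h1, hx, Finset.mem_insert, h2, Set.mem_insert_iff, latPt_injective.eq_iff]

open Classical in
lemma code_of_cut {m : ℕ} {P Q : LatticePolytope d 3} (hP : InTrap m (code P))
    (hQ : ¬ InTrap m (code Q)) (h : (Lam d 3).Adj P Q) :
    ∃ z, z ∉ code P ∧ code Q = insert z (code P) := by
  obtain ⟨hne, h1 | h1⟩ := h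
  · obtain ⟨z, hz⟩ := code_insertion h1
    refine ⟨z, fun hzP => ?_, hz⟩
    rw [Finset.insert_eq_of_mem hzP] at hz
    exact hne (code_injective hz.symm)
  · obtain ⟨z, hz⟩ := code_insertion h1
    exfalso
    apply hQ
    apply hP.mono
    rw [hz]
    exact Finset.subset_insert _ _

lemma cutSize_le_sum_exit (d m : ℕ) :
    cutSize (Lam d 3) (trapP d m) ≤ ∑ x : Pt d, (exitX m x).card := by
  classical
  rw [← Finset.card_sigma]
  unfold cutSize
  refine Finset.card_le_card_of_forall_subsingleton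
    (fun (e : LatticePolytope d 3 × LatticePolytope d 3) (b : Σ _ : Pt d, Finset (Pt d)) =>
      code e.1 = b.2 ∧ code e.2 = insert b.1 b.2) ?_ ?_
  · rintro ⟨P, Q⟩ he
    obtain ⟨hP, hQ, hadj⟩ := (SimpleGraph.mem_interedges_iff _).1 he
    have hP' : InTrap m (code P) := by simpa [trapP] using hP
    have hQ' : ¬ InTrap m (code Q) := by simpa [trapP] using hQ
    obtain ⟨z, hz, hzQ⟩ := code_of_cut hP' hQ' hadj
    refine ⟨⟨z, code P⟩, ?_, rfl, hzQ⟩
    refine Finset.mem_sigma.2 ⟨Finset.mem_univ _, ?_⟩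
    refine Finset.mem_filter.2 ⟨mem_trap.2 hP', hz, ?_, ?_⟩
    · show CP (insert z (code P))
      rw [← hzQ]
      exact CP_code Q
    · show ¬ InTrap m (insert z (code P))
      rw [← hzQ]
      exact hQ'
  · rintro ⟨z, A⟩ - ⟨P, Q⟩ h1 ⟨P', Q'⟩ h2
    obtain ⟨-, h1a, h1b⟩ := h1
    obtain ⟨-, h2a, h2b⟩ := h2
    have e1 : P = P' := code_injective (h1a.trans h2a.symm)
    have e2 : Q = Q' := code_injective (h1b.trans h2b.symm)
    rw [e1, e2]

end Pool.Agent.MP_f22ace_co.Trap
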