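import Pool.Agent.TrapF22.CardE

/-!
# The trap contains at most half of the vertices
-/

set_option autoImplicit false

namespace Pool.Agent.MP_f22ace_co.Trap.Half

open Finset

variable {d : ℕ}

/-- the coefficients of a functional which exposes `z` -/
noncomputable def cf (L : ℝ) (a : Fin (3 + 1)) : ℝ :=
  if a = 0 then L else if a = 3 then -L else if a = 1 then 1 else -1

lemma cf_outer {L : ℝ} (hL : 0 ≤ L) {a b : Fin (3 + 1)} (ha : a = 0 ∨ a = 3) (hab : b ≠ a) :
    L ≤ cf L a * (((b : ℕ) : ℝ) - ((a : ℕ) : ℝ)) := by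
  fin_cases a <;> fin_cases b <;> simp_all [cf] <;> nlinarith

lemma cf_inner {L : ℝ} {a b : Fin (3 + 1)} (ha : a = 1 ∨ a = 2) :
    -1 ≤ cf L a * (((b : ℕ) : ℝ) - ((a : ℕ) : ℝ)) := by
  fin_cases a <;> fin_cases b <;> simp_all [cf] <;> norm_num

lemma cf_inner' {L : ℝ} {a b : Fin (3 + 1)} (ha : a = 1 ∨ a = 2) (hb : b = 1 ∨ b = 2)
    (hab : b ≠ a) : 1 ≤ cf L a * (((b : ℕ) : ℝ) - ((a : ℕ) : ℝ)) := by
  fin_cases a <;> fin_cases b <;> simp_all [cf] <;> norm_num

lemma outer_or_inner (a : Fin (3 + 1)) : (a = 0 ∨ a = 3) ∨ (a = 1 ∨ a = 2) := by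
  revert a; decide

lemma mem_inn {x : Pt d} {i : Fin d} : i ∈ inn x ↔ (x i = 1 ∨ x i = 2) := by
  simp [inn]

/-- every point with `j` inner coordinates is exposed among these points -/
lemma exposed_level (j : ℕ) (z : Pt d) (hz : (inn z).card = j) :
    ∃ f : (Fin d → ℝ) →ₗ[ℝ] ℝ, ∀ w : Pt d, (inn w).card = j → w ≠ z →
      f (latPt d 3 z) < f (latPt d 3 w) := by
  classical
  set L : ℝ := (d : ℝ) + 1 with hL
  have hL0 : 0 ≤ L := by positivity
  refine ⟨∑ i, cf L (z i) • LinearMap.proj i, ?_⟩
  intro w hw hne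
  have hval : ∀ x : Pt d, (∑ i, cf L (z i) • (LinearMap.proj i : (Fin d → ℝ) →ₗ[ℝ] ℝ))
      (latPt d 3 x) = ∑ i, cf L (z i) * ((x i : ℕ) : ℝ) := by
    intro x
    simp [LinearMap.sum_apply, latPt]
  rw [hval, hval, ← sub_pos, ← Finset.sum_sub_distrib]
  have hterm : ∀ i, cf L (z i) * ((w i : ℕ) : ℝ) - cf L (z i) * ((z i : ℕ) : ℝ) =
      cf L (z i) * (((w i : ℕ) : ℝ) - ((z i : ℕ) : ℝ)) := fun i => by ring
  simp only [hterm]
  have hge : ∀ i, -1 ≤ cf L (z i) * (((w i : ℕ) : ℝ) - ((z i : ℕ) : ℝ)) := by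
    intro i
    rcases outer_or_inner (z i) with h | h
    · by_cases hi : w i = z i
      · rw [hi]; simp
      · exact le_trans (by linarith) (cf_outer hL0 h hi)
    · exact cf_inner h
  by_cases hA : ∃ i, (z i = 0 ∨ z i = 3) ∧ w i ≠ z i
  · obtain ⟨i0, h0, h1⟩ := hA
    rw [← Finset.add_sum_erase _ _ (Finset.mem_univ i0)]
    have h2 := cf_outer hL0 h0 h1
    have h3 : -((univ.erase i0).card : ℝ) ≤
        ∑ i ∈ univ.erase i0, cf L (z i) * (((w i : ℕ) : ℝ) - ((z i : ℕ) : ℝ)) := by
      have h4 := Finset.card_nsmul_le_sum (univ.erase i0)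
        (fun i => cf L (z i) * (((w i : ℕ) : ℝ) - ((z i : ℕ) : ℝ))) (-1) (fun i _ => hge i)
      rw [nsmul_eq_mul] at h4
      linarith
    have h5 : ((univ.erase i0).card : ℝ) ≤ d := by
      have h6 : (univ.erase i0).card ≤ (univ : Finset (Fin d)).card :=
        Finset.card_le_card (Finset.erase_subset _ _)
      rw [Finset.card_univ, Fintype.card_fin] at h6
      exact_mod_cast h6
    linarith
  · push Not at hA
    have hsub : inn w ⊆ inn z := by
      intro i hi
      rw [mem_inn] at hi ⊢
      rcases outer_or_inner (z i) with h | h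
      · rw [hA i h] at hi; exact hi
      · exact h
    have heq : inn w = inn z := Finset.eq_of_subset_of_card_le hsub (by rw [hw, hz])
    have hinner : ∀ i, (z i = 1 ∨ z i = 2) → (w i = 1 ∨ w i = 2) := fun i hi => by
      rw [← mem_inn, heq, mem_inn]; exact hi
    obtain ⟨i0, h1⟩ : ∃ i, w i ≠ z i := by
      by_contra hno
      push Not at hno
      exact hne (funext hno)
    have h0 : z i0 = 1 ∨ z i0 = 2 := by
      rcases outer_or_inner (z i0) with h | h
      · exact absurd (hA i0 h) h1
      · exact h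
    refine Finset.sum_pos' (fun i _ => ?_) ⟨i0, Finset.mem_univ _, ?_⟩
    · by_cases hi : w i = z i
      · rw [hi]; simp
      · rcases outer_or_inner (z i) with h | h
        · exact absurd (hA i h) hi
        · exact le_trans zero_le_one (cf_inner' h (hinner i h) hi)
    · exact lt_of_lt_of_le one_pos (cf_inner' h0 (hinner i0 h0) h1)

/-- the points with `j` inner coordinates, `j < d`, span -/
lemma span_level (j : ℕ) (hj : j < d) :
    affineSpan ℝ (latPt d 3 '' ((univ.filter (fun x : Pt d => (inn x).card = j) :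
      Finset (Pt d)) : Set (Pt d))) = ⊤ := by
  classical
  set S := latPt d 3 '' ((univ.filter (fun x : Pt d => (inn x).card = j) :
      Finset (Pt d)) : Set (Pt d)) with hS
  -- for each coordinate an edge in this direction
  have hex : ∀ i : Fin d, ∃ x y : Pt d, (inn x).card = j ∧ (inn y).card = j ∧
      latPt d 3 y - latPt d 3 x = (3 : ℝ) • (Pi.single i 1 : Fin d → ℝ) := by
    intro i
    obtain ⟨T, hT, hTc⟩ := Finset.exists_subset_card_eq (s := univ.erase i) (n := j) (by
      rw [Finset.card_erase_of_mem (Finset.mem_univ _), Finset.card_univ, Fintype.card_fin]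
      omega)
    have hiT : i ∉ T := fun h => Finset.notMem_erase i univ (hT h)
    refine ⟨fun k => if k ∈ T then 1 else 0,
      fun k => if k ∈ T then 1 else if k = i then 3 else 0, ?_, ?_, ?_⟩
    · rw [← hTc]
      congr 1
      ext k
      rw [mem_inn]
      by_cases hk : k ∈ T <;> simp [hk]
    · rw [← hTc]
      congr 1
      ext k
      rw [mem_inn]
      by_cases hk : k ∈ T
      · simp [hk]
      · by_cases hki : k = i
        · subst hki
          simp only [hk, if_false, if_true, iff_false]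
          decide
        · simp [hk, hki]
    · funext k
      simp only [latPt, Pi.sub_apply, Pi.smul_apply, smul_eq_mul]
      by_cases hk : k ∈ T
      · have hki : k ≠ i := fun h => hiT (h ▸ hk)
        simp [hk, Pi.single_eq_of_ne hki]
      · by_cases hki : k = i
        · subst hki
          simp [hk]
        · simp [hk, hki, Pi.single_eq_of_ne hki]
  have hmem : ∀ x : Pt d, (inn x).card = j → latPt d 3 x ∈ S := fun x hx =>
    ⟨x, by simp [hx], rfl⟩
  have hd : 0 < d := by omega
  obtain ⟨x0, -, hx0, -, -⟩ := hex ⟨0, hd⟩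
  have hne : S.Nonempty := ⟨_, hmem x0 hx0⟩
  rw [AffineSubspace.affineSpan_eq_top_iff_vectorSpan_eq_top_of_nonempty ℝ _ _ hne]
  rw [eq_top_iff]
  intro v _
  have hv : v = ∑ i, (v i / 3) • ((3 : ℝ) • (Pi.single i 1 : Fin d → ℝ)) := by
    funext k
    rw [Finset.sum_apply, Finset.sum_eq_single k]
    · simp
    · intro b _ hb
      simp [Pi.single_eq_of_ne (Ne.symm hb)]
    · intro h; exact absurd (Finset.mem_univ _) h
  rw [hv]
  refine Submodule.sum_mem _ fun i _ => Submodule.smul_mem _ _ ?_
  obtain ⟨x, y, hx, hy, hxy⟩ := hex i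
  rw [← hxy]
  exact vsub_mem_vectorSpan ℝ (hmem y hy) (hmem x hx)

/-- a small base -/
lemma exists_base (W : Finset (Pt d))
    (hW : affineSpan ℝ (latPt d 3 '' (W : Set (Pt d))) = ⊤) :
    ∃ B ⊆ W, B.card ≤ d + 1 ∧ affineSpan ℝ (latPt d 3 '' (B : Set (Pt d))) = ⊤ := by
  classical
  obtain ⟨t, hts, htspan, hti⟩ := exists_affineIndependent ℝ (Fin d → ℝ)
    (latPt d 3 '' (W : Set (Pt d)))
  have htf : t.Finite := ((Finset.finite_toSet W).image _).subset hts
  haveI := htf.fintype
  obtain ⟨B0, hB0⟩ : ∃ B0 : Finset (Pt d), B0 = W.filter (fun z => latPt d 3 z ∈ t) := ⟨_, rfl⟩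
  refine ⟨B0, by rw [hB0]; exact Finset.filter_subset _ _, ?_, ?_⟩
  · have h1 : B0.card ≤ Fintype.card t := by
      rw [hB0]
      rw [← Set.toFinset_card]
      refine Finset.card_le_card_of_injOn (latPt d 3) (fun z hz => ?_)
        (fun a _ b _ h => latPt_injective h)
      have hz' := (Finset.mem_filter.1 hz).2
      simpa using hz'
    have h2 : Fintype.card t ≤
        Module.finrank ℝ (vectorSpan ℝ (Set.range (fun x : t => (x : Fin d → ℝ)))) + 1 := by
      have h0 := hti.card_le_finrank_succ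
      convert h0
    have h3 : Module.finrank ℝ (vectorSpan ℝ (Set.range (fun x : t => (x : Fin d → ℝ)))) ≤ d := by
      have := Submodule.finrank_le (vectorSpan ℝ (Set.range (fun x : t => (x : Fin d → ℝ))))
      rwa [Module.finrank_fin_fun] at this
    omega
  · have h1 : latPt d 3 '' ((B0 : Finset (Pt d)) : Set (Pt d)) = t := by
      rw [hB0]
      ext v
      constructor
      · rintro ⟨z, hz, rfl⟩
        have hz' : z ∈ W.filter (fun z => latPt d 3 z ∈ t) := hz
        exact (Finset.mem_filter.1 hz').2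
      · intro hv
        obtain ⟨z, hz, rfl⟩ := hts hv
        exact ⟨z, by
          have : z ∈ W.filter (fun z => latPt d 3 z ∈ t) :=
            Finset.mem_filter.2 ⟨hz, hv⟩
          exact this, rfl⟩
    rw [h1, htspan, hW]

lemma choose_bound (m : ℕ) (hm : 1 ≤ m) (h : 5 * (m + 1) ≤ d) :
    d.choose m + d.choose (m - 1) + 2 * d.choose m ≤ d.choose (m + 1) := by
  have h1 : d.choose (m + 1) * (m + 1) = d.choose m * (d - m) := Nat.choose_succ_right_eq d m
  have h2 : 4 * (m + 1) ≤ d - m := by omega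
  have h3 : 4 * d.choose m ≤ d.choose (m + 1) := by
    have h4 : (4 * d.choose m) * (m + 1) ≤ d.choose (m + 1) * (m + 1) := by
      rw [h1]
      calc (4 * d.choose m) * (m + 1) = d.choose m * (4 * (m + 1)) := by ring
        _ ≤ _ := Nat.mul_le_mul_left _ h2
    exact Nat.le_of_mul_le_mul_right h4 (by omega)
  have h5 : d.choose (m - 1) ≤ d.choose m := by
    have h6 : d.choose (m - 1 + 1) * (m - 1 + 1) = d.choose (m - 1) * (d - (m - 1)) :=
      Nat.choose_succ_right_eq d (m - 1)
    have h7 : m - 1 + 1 = m := by omega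
    rw [h7] at h6
    have h8 : m ≤ d - (m - 1) := by omega
    have h9 : d.choose (m - 1) * m ≤ d.choose m * m := by
      rw [h6]
      exact Nat.mul_le_mul_left _ h8
    exact Nat.le_of_mul_le_mul_right h9 (by omega)
  omega

/-- The trap contains at most half of the vertices. -/
theorem two_mul_card_trapP_le (d m : ℕ) (hm : 1 ≤ m) (h : 5 * (m + 1) ≤ d) :
    2 * (trapP d m).card ≤ Fintype.card (LatticePolytope d 3) := by
  classical
  set W : Finset (Pt d) := univ.filter (fun x => (inn x).card = m + 1) with hW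
  have hWs := span_level (d := d) (m + 1) (by omega)
  obtain ⟨B, hBW, hBc, hBs⟩ := exists_base W hWs
  obtain ⟨F, hFc, hF⟩ := exists_family W B hBW (fun z hz => by
    obtain ⟨f, hf⟩ := exposed_level (m + 1) z (Finset.mem_filter.1 hz).2
    exact ⟨f, fun w hw hne => hf w (Finset.mem_filter.1 hw).2 hne⟩) hBs
  have hBne : B.Nonempty := by
    rw [Finset.nonempty_iff_ne_empty]
    rintro rfl
    simp at hBs
  obtain ⟨b, hb⟩ := hBne
  -- disjoint
  have hdisj : Disjoint (trapP d m) F := by
    rw [Finset.disjoint_left]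
    intro P hP hPF
    have h1 := (Finset.mem_filter.1 hP).2.2.1 b ((hF P hPF).1 hb)
    have h2 := (Finset.mem_filter.1 (hBW hb)).2
    omega
  -- the trap is small
  set U : Finset (Pt d) := univ.filter (fun x => (inn x).card = m) ∪
    univ.filter (fun x => (inn x).card = m - 1) with hU
  have h1 : (trapP d m).card ≤ 2 ^ U.card := by
    rw [← Finset.card_powerset]
    refine Finset.card_le_card_of_injOn code (fun P hP => ?_) (fun P _ Q _ hPQ =>
      code_injective hPQ)
    have hP' : P ∈ trapP d m := hP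
    have h2 := (Finset.mem_filter.1 hP').2.2.1
    show code P ∈ (U.powerset : Set (Finset (Pt d)))
    rw [Finset.mem_coe, Finset.mem_powerset]
    intro a ha
    rw [hU, Finset.mem_union, Finset.mem_filter, Finset.mem_filter]
    rcases h2 a ha with h3 | h3
    · exact Or.inl ⟨Finset.mem_univ _, h3⟩
    · exact Or.inr ⟨Finset.mem_univ _, by omega⟩
  have h2 : U.card ≤ d.choose m * 2 ^ d + d.choose (m - 1) * 2 ^ d := by
    refine (Finset.card_union_le _ _).trans ?_
    rw [card_level, card_level]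
  have h3 : W.card = d.choose (m + 1) * 2 ^ d := card_level d (m + 1)
  have h4 : U.card ≤ W.card - B.card := by
    have h5 := choose_bound m hm h
    have h6 : (d.choose m + d.choose (m - 1) + 2 * d.choose m) * 2 ^ d ≤
        d.choose (m + 1) * 2 ^ d := Nat.mul_le_mul_right _ h5
    have h7 : d + 1 ≤ 2 ^ d := Nat.succ_le_of_lt d.lt_two_pow_self
    have h8 : 1 ≤ d.choose m := Nat.choose_pos (by omega)
    have h9 : 2 ^ d ≤ d.choose m * 2 ^ d := Nat.le_mul_of_pos_left _ h8
    have h10 : (d.choose m + d.choose (m - 1) + 2 * d.choose m) * 2 ^ d =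
      d.choose m * 2 ^ d + d.choose (m - 1) * 2 ^ d + 2 * (d.choose m * 2 ^ d) := by ring
    rw [h10] at h6
    omega
  have h5 : (trapP d m).card ≤ F.card := by
    rw [hFc]
    exact h1.trans (Nat.pow_le_pow_right (by norm_num) h4)
  calc 2 * (trapP d m).card ≤ (trapP d m).card + F.card := by omega
    _ = (trapP d m ∪ F).card := (Finset.card_union_of_disjoint hdisj).symm
    _ ≤ Fintype.card (LatticePolytope d 3) := Finset.card_le_univ _

end Pool.Agent.MP_f22ace_co.Trap.Half
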