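import Mathlib

set_option autoImplicit false

namespace Pool.Agent.MP_f22ace_co.Trap

open Filter Topology

lemma numeric_ev (q : ℝ) (hq0 : 0 < q) (hq1 : q < 1) (k : ℕ) (C ε : ℝ) (hC : 0 ≤ C)
    (hε : 0 < ε) : ∃ N : ℕ, ∀ n : ℕ, N ≤ n → C * (q ^ n * (4 * (n : ℝ)) ^ k) ^ n ≤ ε := by
  have h1 : Tendsto (fun n : ℕ => (n : ℝ) ^ k * q ^ n) atTop (𝓝 0) :=
    tendsto_pow_const_mul_const_pow_of_abs_lt_one k (by rw [abs_of_pos hq0]; exact hq1)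
  have h2 : Tendsto (fun n : ℕ => (4 : ℝ) ^ k * ((n : ℝ) ^ k * q ^ n)) atTop (𝓝 0) := by
    have := h1.const_mul ((4 : ℝ) ^ k)
    simpa using this
  have h3 : Tendsto (fun n : ℕ => C * (1 / 2 : ℝ) ^ n) atTop (𝓝 0) := by
    have h := tendsto_pow_atTop_nhds_zero_of_lt_one (r := (1 / 2 : ℝ)) (by norm_num) (by norm_num)
    have := h.const_mul C
    simpa using this
  have e2 : ∀ᶠ n : ℕ in atTop, (4 : ℝ) ^ k * ((n : ℝ) ^ k * q ^ n) < 1 / 2 :=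
    h2.eventually_lt_const (by norm_num)
  have e3 : ∀ᶠ n : ℕ in atTop, C * (1 / 2 : ℝ) ^ n < ε := h3.eventually_lt_const hε
  obtain ⟨N, hN⟩ := eventually_atTop.1 (e2.and e3)
  refine ⟨N, fun n hn => ?_⟩
  obtain ⟨a, b⟩ := hN n hn
  have e : q ^ n * (4 * (n : ℝ)) ^ k = (4 : ℝ) ^ k * ((n : ℝ) ^ k * q ^ n) := by
    rw [mul_pow]; ring
  have h0 : 0 ≤ q ^ n * (4 * (n : ℝ)) ^ k := by positivity
  have h4 : (q ^ n * (4 * (n : ℝ)) ^ k) ^ n ≤ (1 / 2 : ℝ) ^ n :=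
    pow_le_pow_left₀ h0 (by rw [e]; exact a.le) n
  calc C * (q ^ n * (4 * (n : ℝ)) ^ k) ^ n ≤ C * (1 / 2 : ℝ) ^ n :=
        mul_le_mul_of_nonneg_left h4 hC
    _ ≤ ε := b.le

lemma numeric_pw (a x : ℝ) (k n : ℕ) : (a ^ n * x ^ k) ^ n = a ^ (n ^ 2) * x ^ (k * n) := by
  rw [mul_pow, ← pow_mul, ← pow_mul, sq]

/-- The numeric estimates for the trap. -/
theorem numeric_mid (d n : ℕ) (hn100 : 100 ≤ n) (hlo : n * n ≤ d)
    (hhi : d < (n + 1) * (n + 1)) : 1 ≤ n ∧ 100 * n ≤ d ∧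
    (16 : ℝ) ^ d * ((((4 * d) ^ (32 * n) : ℕ) : ℝ) + 1) ^ 2 * (3 / 4) ^ (16 * n ^ 2) ≤
      4 * ((16 * (3 / 4) ^ 16) ^ n * (4 * (n : ℝ)) ^ 132) ^ n ∧
    ((d.choose (8 * n - 1) : ℕ) : ℝ) * 2 ^ d * ((((4 * d) ^ (32 * n) : ℕ) : ℝ) + 1) ^ 8 *
      (3 / 4) ^ (3 * (d - 24 * n)) ≤ 256 * ((27 / 32) ^ n * (4 * (n : ℝ)) ^ 552) ^ n := by
  have hd100 : 100 * n ≤ d := le_trans (Nat.mul_le_mul_right n hn100) hlo
  have hdle : d ≤ n ^ 2 + 2 * n := by nlinarith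
  have hdge : n ^ 2 ≤ d := by nlinarith
  have h4d : 4 * d ≤ (4 * n) ^ 2 := by nlinarith
  have hd1 : 1 ≤ d := by omega
  -- the real number x = 4 n
  set x : ℝ := 4 * (n : ℝ) with hx
  have hnR : (100 : ℝ) ≤ (n : ℝ) := by exact_mod_cast hn100
  have hx4 : (4 : ℝ) ≤ x := by rw [hx]; linarith
  have hx1 : (1 : ℝ) ≤ x := by linarith
  have hx0 : (0 : ℝ) ≤ x := by linarith
  have hxn : ((4 * n : ℕ) : ℝ) = x := by rw [hx]; push_cast; ring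
  have hXY : (((4 * d) ^ (32 * n) : ℕ) : ℝ) ≤ x ^ (64 * n) := by
    have h : (4 * d) ^ (32 * n) ≤ (4 * n) ^ (64 * n) := by
      calc (4 * d) ^ (32 * n) ≤ ((4 * n) ^ 2) ^ (32 * n) := Nat.pow_le_pow_left h4d _
        _ = (4 * n) ^ (64 * n) := by rw [← pow_mul]; congr 1; ring
    calc (((4 * d) ^ (32 * n) : ℕ) : ℝ) ≤ (((4 * n) ^ (64 * n) : ℕ) : ℝ) := by exact_mod_cast h
      _ = x ^ (64 * n) := by rw [Nat.cast_pow, hxn]
  have hX1 : (((4 * d) ^ (32 * n) : ℕ) : ℝ) + 1 ≤ 2 * x ^ (64 * n) := by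
    have : (1 : ℝ) ≤ x ^ (64 * n) := one_le_pow₀ hx1
    linarith
  have hX0 : (0 : ℝ) ≤ (((4 * d) ^ (32 * n) : ℕ) : ℝ) + 1 := by positivity
  have hxp : ∀ m : ℕ, (0 : ℝ) ≤ x ^ m := fun m => pow_nonneg hx0 m
  refine ⟨by omega, hd100, ?_, ?_⟩
  · -- first estimate
    have a1 : (16 : ℝ) ^ d ≤ 16 ^ (n ^ 2) * x ^ (4 * n) := by
      calc (16 : ℝ) ^ d ≤ 16 ^ (n ^ 2 + 2 * n) := pow_le_pow_right₀ (by norm_num) hdle
        _ = 16 ^ (n ^ 2) * (4 : ℝ) ^ (4 * n) := by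
            rw [pow_add, pow_mul (16 : ℝ) 2 n, pow_mul (4 : ℝ) 4 n]; norm_num
        _ ≤ 16 ^ (n ^ 2) * x ^ (4 * n) := by
            apply mul_le_mul_of_nonneg_left _ (by positivity)
            exact pow_le_pow_left₀ (by norm_num) hx4 _
    have a2 : ((((4 * d) ^ (32 * n) : ℕ) : ℝ) + 1) ^ 2 ≤ 4 * x ^ (128 * n) := by
      calc ((((4 * d) ^ (32 * n) : ℕ) : ℝ) + 1) ^ 2 ≤ (2 * x ^ (64 * n)) ^ 2 :=
            pow_le_pow_left₀ hX0 hX1 2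
        _ = 4 * x ^ (128 * n) := by
            rw [mul_pow, ← pow_mul]
            have : 64 * n * 2 = 128 * n := by ring
            rw [this]; norm_num
    have a3 : ((3 : ℝ) / 4) ^ (16 * n ^ 2) = ((3 / 4) ^ 16) ^ (n ^ 2) := by rw [pow_mul]
    calc (16 : ℝ) ^ d * ((((4 * d) ^ (32 * n) : ℕ) : ℝ) + 1) ^ 2 * (3 / 4) ^ (16 * n ^ 2)
        ≤ (16 ^ (n ^ 2) * x ^ (4 * n)) * (4 * x ^ (128 * n)) * (3 / 4) ^ (16 * n ^ 2) := by
          apply mul_le_mul_of_nonneg_right _ (by positivity)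
          exact mul_le_mul a1 a2 (by positivity) (mul_nonneg (by positivity) (hxp _))
      _ = 4 * ((16 * (3 / 4) ^ 16) ^ n * x ^ 132) ^ n := by
          have e1 : x ^ (132 * n) = x ^ (4 * n) * x ^ (128 * n) := by
            rw [← pow_add]; congr 1; ring
          rw [numeric_pw, a3, mul_pow (16 : ℝ) _ (n ^ 2), e1]; ring
  · -- second estimate
    obtain ⟨e, he⟩ : ∃ e, d = e + 24 * n := ⟨d - 24 * n, by omega⟩
    have hde : d - 24 * n = e := by omega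
    have b1 : ((d.choose (8 * n - 1) : ℕ) : ℝ) ≤ x ^ (16 * n) := by
      have h : d.choose (8 * n - 1) ≤ (4 * n) ^ (16 * n) := by
        calc d.choose (8 * n - 1) ≤ d ^ (8 * n - 1) := Nat.choose_le_pow d (8 * n - 1)
          _ ≤ d ^ (8 * n) := Nat.pow_le_pow_right hd1 (by omega)
          _ ≤ ((4 * n) ^ 2) ^ (8 * n) := Nat.pow_le_pow_left (by omega) _
          _ = (4 * n) ^ (16 * n) := by rw [← pow_mul]; congr 1; ring
      calc ((d.choose (8 * n - 1) : ℕ) : ℝ) ≤ (((4 * n) ^ (16 * n) : ℕ) : ℝ) := by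
            exact_mod_cast h
        _ = x ^ (16 * n) := by rw [Nat.cast_pow, hxn]
    have b2 : (2 : ℝ) ^ d * (3 / 4) ^ (3 * (d - 24 * n)) ≤ x ^ (24 * n) * (27 / 32) ^ (n ^ 2) := by
      rw [hde]
      have c1 : (2 : ℝ) ^ d * (3 / 4) ^ (3 * e) = 2 ^ (24 * n) * (27 / 32 : ℝ) ^ e := by
        rw [he, pow_add, pow_mul ((3 : ℝ) / 4) 3 e]
        have : ((27 : ℝ) / 32) = 2 * (3 / 4) ^ 3 := by norm_num
        rw [this, mul_pow]; ring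
      have c2 : (27 / 32 : ℝ) ^ e ≤ (27 / 32) ^ (n ^ 2) * 2 ^ (24 * n) := by
        have c3 : (27 / 32 : ℝ) ^ (e + 24 * n) ≤ (27 / 32) ^ (n ^ 2) :=
          pow_le_pow_of_le_one (by norm_num) (by norm_num) (by omega)
        have c4 : (1 : ℝ) ≤ (27 / 32) ^ (24 * n) * 2 ^ (24 * n) := by
          rw [← mul_pow]; exact one_le_pow₀ (by norm_num)
        calc (27 / 32 : ℝ) ^ e = (27 / 32 : ℝ) ^ e * 1 := by ring
          _ ≤ (27 / 32 : ℝ) ^ e * ((27 / 32) ^ (24 * n) * 2 ^ (24 * n)) :=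
              mul_le_mul_of_nonneg_left c4 (by positivity)
          _ = (27 / 32 : ℝ) ^ (e + 24 * n) * 2 ^ (24 * n) := by rw [pow_add]; ring
          _ ≤ (27 / 32) ^ (n ^ 2) * 2 ^ (24 * n) :=
              mul_le_mul_of_nonneg_right c3 (by positivity)
      have c5 : (2 : ℝ) ^ (24 * n) * 2 ^ (24 * n) ≤ x ^ (24 * n) := by
        rw [← mul_pow]
        exact pow_le_pow_left₀ (by norm_num) (by linarith) _
      rw [c1]
      calc (2 : ℝ) ^ (24 * n) * (27 / 32 : ℝ) ^ e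
          ≤ 2 ^ (24 * n) * ((27 / 32) ^ (n ^ 2) * 2 ^ (24 * n)) :=
            mul_le_mul_of_nonneg_left c2 (by positivity)
        _ = (2 ^ (24 * n) * 2 ^ (24 * n)) * (27 / 32) ^ (n ^ 2) := by ring
        _ ≤ x ^ (24 * n) * (27 / 32) ^ (n ^ 2) :=
            mul_le_mul_of_nonneg_right c5 (by positivity)
    have b3 : ((((4 * d) ^ (32 * n) : ℕ) : ℝ) + 1) ^ 8 ≤ 256 * x ^ (512 * n) := by
      calc ((((4 * d) ^ (32 * n) : ℕ) : ℝ) + 1) ^ 8 ≤ (2 * x ^ (64 * n)) ^ 8 :=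
            pow_le_pow_left₀ hX0 hX1 8
        _ = 256 * x ^ (512 * n) := by
            rw [mul_pow, ← pow_mul]
            have : 64 * n * 8 = 512 * n := by ring
            rw [this]; norm_num
    calc ((d.choose (8 * n - 1) : ℕ) : ℝ) * 2 ^ d * ((((4 * d) ^ (32 * n) : ℕ) : ℝ) + 1) ^ 8 *
          (3 / 4) ^ (3 * (d - 24 * n))
        = ((d.choose (8 * n - 1) : ℕ) : ℝ) * ((2 : ℝ) ^ d * (3 / 4) ^ (3 * (d - 24 * n))) *
          ((((4 * d) ^ (32 * n) : ℕ) : ℝ) + 1) ^ 8 := by ring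
      _ ≤ x ^ (16 * n) * (x ^ (24 * n) * (27 / 32) ^ (n ^ 2)) * (256 * x ^ (512 * n)) := by
          have g1 : ((d.choose (8 * n - 1) : ℕ) : ℝ) * ((2 : ℝ) ^ d * (3 / 4) ^ (3 * (d - 24 * n)))
              ≤ x ^ (16 * n) * (x ^ (24 * n) * (27 / 32) ^ (n ^ 2)) :=
            mul_le_mul b1 b2 (by positivity) (hxp _)
          exact mul_le_mul g1 b3 (by positivity)
            (mul_nonneg (hxp _) (mul_nonneg (hxp _) (by positivity)))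
      _ = 256 * ((27 / 32) ^ n * x ^ 552) ^ n := by
          have e1 : x ^ (552 * n) = x ^ (16 * n) * (x ^ (24 * n) * x ^ (512 * n)) := by
            rw [← pow_add, ← pow_add]; congr 1; ring
          rw [numeric_pw, e1]; ring

/-- The numeric estimate for the trap, with `n = Nat.sqrt d`. -/
theorem numeric_exp (ε : ℝ) (hε : 0 < ε) : ∃ D : ℕ, ∀ d : ℕ, D ≤ d → ∃ n : ℕ, 1 ≤ n ∧ 100 * n ≤ d ∧
    (16 : ℝ) ^ d * ((((4 * d) ^ (32 * n) : ℕ) : ℝ) + 1) ^ 2 * (3 / 4) ^ (16 * n ^ 2) ≤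
      ε * (9 / 10) ^ d ∧
    ((d.choose (8 * n - 1) : ℕ) : ℝ) * 2 ^ d * ((((4 * d) ^ (32 * n) : ℕ) : ℝ) + 1) ^ 8 *
      (3 / 4) ^ (3 * (d - 24 * n)) ≤ ε * (9 / 10) ^ d := by
  obtain ⟨N1, hN1⟩ := numeric_ev (10 / 9 * (16 * (3 / 4) ^ 16)) (by norm_num) (by norm_num) 134 4 ε
    (by norm_num) hε
  obtain ⟨N2, hN2⟩ := numeric_ev (10 / 9 * (27 / 32)) (by norm_num) (by norm_num) 554 256 ε
    (by norm_num) hε
  refine ⟨(N1 + N2 + 100) ^ 2, fun d hd => ⟨Nat.sqrt d, ?_⟩⟩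
  have hn : N1 + N2 + 100 ≤ Nat.sqrt d := Nat.le_sqrt'.2 hd
  have hlo : Nat.sqrt d * Nat.sqrt d ≤ d := Nat.sqrt_le d
  have hhi : d < (Nat.sqrt d + 1) * (Nat.sqrt d + 1) := Nat.lt_succ_sqrt d
  generalize Nat.sqrt d = n at hn hlo hhi
  have hn100 : 100 ≤ n := by omega
  obtain ⟨h1, h2, h3, h4⟩ := numeric_mid d n hn100 hlo hhi
  have hA := hN1 n (by omega)
  have hB := hN2 n (by omega)
  have hdle : d ≤ n ^ 2 + 2 * n := by nlinarith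
  have hnR : (100 : ℝ) ≤ (n : ℝ) := by exact_mod_cast hn100
  have hx1 : (10 / 9 : ℝ) ≤ 4 * (n : ℝ) := by linarith
  have h0 : (10 / 9 : ℝ) ^ d ≤ (10 / 9) ^ (n ^ 2) * (4 * (n : ℝ)) ^ (2 * n) := by
    calc (10 / 9 : ℝ) ^ d ≤ (10 / 9) ^ (n ^ 2 + 2 * n) :=
          pow_le_pow_right₀ (by norm_num) hdle
      _ = (10 / 9) ^ (n ^ 2) * (10 / 9) ^ (2 * n) := pow_add _ _ _
      _ ≤ (10 / 9) ^ (n ^ 2) * (4 * (n : ℝ)) ^ (2 * n) := by
          apply mul_le_mul_of_nonneg_left _ (by positivity)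
          exact pow_le_pow_left₀ (by norm_num) hx1 _
  have h90 : (10 / 9 : ℝ) ^ d * (9 / 10) ^ d = 1 := by
    rw [← mul_pow]
    norm_num
  have key : ∀ (L C q : ℝ) (k : ℕ), 0 ≤ C → 0 ≤ q → L ≤ C * (q ^ n * (4 * (n : ℝ)) ^ k) ^ n →
      C * ((10 / 9 * q) ^ n * (4 * (n : ℝ)) ^ (k + 2)) ^ n ≤ ε → L ≤ ε * (9 / 10) ^ d := by
    intro L C q k hC hq hL hle
    have e1 : C * (q ^ n * (4 * (n : ℝ)) ^ k) ^ n *
        ((10 / 9) ^ (n ^ 2) * (4 * (n : ℝ)) ^ (2 * n)) =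
        C * ((10 / 9 * q) ^ n * (4 * (n : ℝ)) ^ (k + 2)) ^ n := by
      rw [numeric_pw, numeric_pw, mul_pow (10 / 9 : ℝ) q]
      have : (k + 2) * n = k * n + 2 * n := by ring
      rw [this, pow_add]
      ring
    have e2 : L * (10 / 9) ^ d ≤ ε := by
      calc L * (10 / 9) ^ d ≤ (C * (q ^ n * (4 * (n : ℝ)) ^ k) ^ n) * (10 / 9) ^ d :=
            mul_le_mul_of_nonneg_right hL (by positivity)
        _ ≤ (C * (q ^ n * (4 * (n : ℝ)) ^ k) ^ n) *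
            ((10 / 9) ^ (n ^ 2) * (4 * (n : ℝ)) ^ (2 * n)) :=
            mul_le_mul_of_nonneg_left h0 (by positivity)
        _ = _ := e1
        _ ≤ ε := hle
    calc L = (L * (10 / 9) ^ d) * (9 / 10) ^ d := by rw [mul_assoc, h90, mul_one]
      _ ≤ ε * (9 / 10) ^ d := mul_le_mul_of_nonneg_right e2 (by positivity)
  exact ⟨h1, h2, key _ 4 _ 132 (by norm_num) (by norm_num) h3 hA,
    key _ 256 _ 552 (by norm_num) (by norm_num) h4 hB⟩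

end Pool.Agent.MP_f22ace_co.Trap
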