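import Pool.Agent.TrapF22.CardE
import Pool.Agent.TrapF22.NumExp
import Pool.Agent.TrapF22.HalfH
import Pool.Agent.TrapF22.ExitE1
import Pool.Agent.TrapF22.ExitE2
import Pool.Agent.TrapF22.ExitE3
import Pool.Agent.TrapF22.ExitE4
import Pool.Agent.TrapF22.ExitE4b
import Pool.Agent.TrapF22.ExitE5

/-!
# A trap in the graph `Λ(d,3)`: the theorem
-/

set_option autoImplicit false

namespace Pool.Agent.MP_f22ace_co.Trap

open Finset

variable {d : ℕ}

/-- Most members of the trap are full dimensional. -/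
lemma card_trap_le {m : ℕ} (hm : 1 ≤ m) (hd : m + 1 ≤ d) :
    (trap d m).card ≤ (trapP d m).card + (badAll d m).card := by
  classical
  have h : trap d m ⊆ (trapP d m).image code ∪ badAll d m := by
    intro A hA
    by_cases hB : A ∈ badAll d m
    · exact Finset.mem_union_right _ hB
    · apply Finset.mem_union_left
      have hA' : InTrap m A := mem_trap.1 hA
      have hsp : Spanning A := by
        apply spanning_of_not_bad hm hd A
        intro x hx hbad
        apply hB
        simp only [badAll, Finset.mem_filter]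
        exact ⟨hA, x, hx, hbad⟩
      obtain ⟨P, hP⟩ := exists_code_of_CP A hA'.1 hsp
      rw [Finset.mem_image]
      refine ⟨P, ?_, hP⟩
      simp only [trapP, Finset.mem_filter, Finset.mem_univ, true_and]
      rw [hP]
      exact hA'
  refine (Finset.card_le_card h).trans ((Finset.card_union_le _ _).trans ?_)
  exact Nat.add_le_add_right Finset.card_image_le _

lemma smallR_le (hd : 1 ≤ d) (m : ℕ) (x : Pt d) (t : ℕ) :
    (smallR m t x).card ≤ ((4 * d) ^ (4 * m) + 1) ^ t := by
  refine (card_small_subsets_le (nearX m x) t).trans ?_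
  exact Nat.pow_le_pow_left (Nat.add_le_add_right (card_near_le hd (4 * m) x) 1) t

lemma card_Pt (d : ℕ) : Fintype.card (Pt d) = 4 ^ d := by
  rw [Fintype.card_fun, Fintype.card_fin, Fintype.card_fin]

lemma card_trap_pos (d m : ℕ) : 0 < (trap d m).card := by
  apply Finset.card_pos.2
  refine ⟨∅, mem_trap.2 ⟨?_, ?_, ?_⟩⟩
  · intro a ha
    exact absurd ha (Finset.notMem_empty a)
  · intro a ha
    exact absurd ha (Finset.notMem_empty a)
  · intro a ha
    exact absurd ha (Finset.notMem_empty a)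

lemma sum_exit_le {m : ℕ} {c2 c3 : ℝ} (hm : 1 ≤ m) (hc2 : 0 ≤ c2) (hc3 : 0 ≤ c3)
    (h2 : ∀ x : Pt d, (inn x).card + 2 ≤ m →
      ((exitX m x).card : ℝ) ≤ c2 * (trap d m).card)
    (h3 : ∀ x : Pt d, (inn x).card + 1 = m →
      ((exitX m x).card : ℝ) ≤ c3 * (trap d m).card) :
    ((∑ x : Pt d, (exitX m x).card : ℕ) : ℝ) ≤
      4 ^ d * ((badAll d m).card + c2 * (trap d m).card) +
        (d.choose (m - 1) * 2 ^ d : ℕ) * (c3 * (trap d m).card) := by
  classical
  have hT : (0 : ℝ) ≤ (trap d m).card := Nat.cast_nonneg _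
  have hB : (0 : ℝ) ≤ (badAll d m).card := Nat.cast_nonneg _
  have key : ∀ x : Pt d, ((exitX m x).card : ℝ) ≤
      ((badAll d m).card + c2 * (trap d m).card) +
        (if (inn x).card = m - 1 then c3 * (trap d m).card else 0) := by
    intro x
    have hc2T : 0 ≤ c2 * (trap d m).card := mul_nonneg hc2 hT
    have hc3T : 0 ≤ c3 * (trap d m).card := mul_nonneg hc3 hT
    have hif : (0 : ℝ) ≤ (if (inn x).card = m - 1 then c3 * (trap d m).card else 0) := by
      split_ifs
      · exact hc3T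
      · exact le_refl 0
    rcases Nat.lt_or_ge m (inn x).card with h | h
    · have h1 := Finset.card_le_card (exit_inner_subset hm x h)
      have h2 : ((exitX m x).card : ℝ) ≤ (badAll d m).card := by exact_mod_cast h1
      linarith
    · rcases Nat.eq_or_lt_of_le h with h' | h'
      · rw [exit_mid x h']
        simp only [Finset.card_empty, Nat.cast_zero]
        linarith
      · rcases Nat.lt_or_ge ((inn x).card + 1) m with h'' | h''
        · have := h2 x h''
          linarith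
        · have h4 : (inn x).card + 1 = m := by omega
          have h5 : (inn x).card = m - 1 := by omega
          rw [if_pos h5]
          have := h3 x h4
          linarith
  rw [Nat.cast_sum]
  refine (Finset.sum_le_sum (fun x _ => key x)).trans ?_
  rw [Finset.sum_add_distrib, Finset.sum_const, Finset.card_univ, card_Pt, ← Finset.sum_filter,
    Finset.sum_const, card_level, nsmul_eq_mul, nsmul_eq_mul]
  push_cast
  exact le_refl _

/-- `h(Λ(d,3)) ≤ (9/10)^d` for all large `d`. -/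
theorem h_side_three : ∃ D : ℕ, ∀ d : ℕ, D ≤ d →
    ∃ S : Finset (LatticePolytope d 3), S.Nonempty ∧
      2 * S.card ≤ Fintype.card (LatticePolytope d 3) ∧
      (cutSize (Lam d 3) S : ℝ) ≤ (9 / 10) ^ d * S.card := by
  obtain ⟨D, hD⟩ := numeric_exp (1 / 6) (by norm_num)
  refine ⟨D, fun d hd => ?_⟩
  obtain ⟨n, hn, hnd, hA, hB⟩ := hD d hd
  set δ : ℝ := 1 / 6 * (9 / 10) ^ d with hδ
  have h910 : (9 / 10 : ℝ) ^ d ≤ 1 := pow_le_one₀ (by norm_num) (by norm_num)
  have hδ0 : 0 < δ := by positivity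
  have hδ2 : δ ≤ 1 / 2 := by
    rw [hδ]
    linarith
  set m : ℕ := 8 * n with hm
  set K : ℕ := (4 * d) ^ (32 * n) + 1 with hK
  have hm1 : 1 ≤ m := by omega
  have hd1 : 1 ≤ d := by omega
  have h4m : 4 * m = 32 * n := by omega
  have hK1 : ∀ (x : Pt d) (t : ℕ), (smallR m t x).card ≤ K ^ t := by
    intro x t
    have := smallR_le hd1 m x t
    rw [h4m] at this
    exact this
  have hK2 : ∀ x : Pt d, (nearX m x).card ≤ K := by
    intro x
    have h : (nearX m x).card ≤ (4 * d) ^ (4 * m) := card_near_le hd1 (4 * m) x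
    rw [h4m] at h
    exact h.trans (Nat.le_succ _)
  have hkk : 4 * n * (4 * n) = 16 * n ^ 2 := by ring
  have hE1 := card_badAll_le (d := d) (m := m) (k := 4 * n) (K := K) hm1 (by omega) hK1
  have hE2 : ∀ x : Pt d, (inn x).card + 2 ≤ m → ((exitX m x).card : ℝ) ≤
      ((K : ℝ) ^ 2 * (3 / 4) ^ (16 * n ^ 2)) * (trap d m).card := by
    intro x hx
    have := card_exit_far_le (k := 4 * n) x hx (by omega) hK1
    rw [hkk] at this
    exact this
  have hE3 : ∀ x : Pt d, (inn x).card + 1 = m → ((exitX m x).card : ℝ) ≤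
      ((K : ℝ) ^ 8 * (3 / 4) ^ (3 * (d - 24 * n))) * (trap d m).card := by
    intro x hx
    have := card_exit_near_le x hx hK1 hK2
    have h3m : 3 * m = 24 * n := by omega
    rw [h3m] at this
    exact this
  rw [hkk] at hE1
  have hcut := cutSize_le_sum_exit d m
  have hsum := sum_exit_le (d := d) hm1 (by positivity) (by positivity) hE2 hE3
  have hTle := card_trap_le (d := d) hm1 (by omega)
  have hTpos := card_trap_pos d m
  set T : ℝ := ((trap d m).card : ℝ) with hT
  set B : ℝ := ((badAll d m).card : ℝ) with hBdef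
  set c2 : ℝ := (K : ℝ) ^ 2 * (3 / 4) ^ (16 * n ^ 2) with hc2
  set c3 : ℝ := (K : ℝ) ^ 8 * (3 / 4) ^ (3 * (d - 24 * n)) with hc3
  have hT0 : 0 < T := Nat.cast_pos.2 hTpos
  have hc20 : 0 ≤ c2 := by positivity
  have hc30 : 0 ≤ c3 := by positivity
  have hKc : (K : ℝ) = (((4 * d) ^ (32 * n) : ℕ) : ℝ) + 1 := by
    rw [hK]
    push_cast
    ring
  have hA' : (16 : ℝ) ^ d * c2 ≤ δ := by
    rw [hc2, hKc, ← mul_assoc]
    exact hA
  have hB' : ((d.choose (m - 1) * 2 ^ d : ℕ) : ℝ) * c3 ≤ δ := by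
    rw [hc3, hKc]
    have : ((d.choose (m - 1) * 2 ^ d : ℕ) : ℝ) = ((d.choose (8 * n - 1) : ℕ) : ℝ) * 2 ^ d := by
      rw [hm]
      push_cast
      ring
    rw [this, ← mul_assoc]
    exact hB
  have h416 : (4 : ℝ) ^ d ≤ 16 ^ d := pow_le_pow_left₀ (by norm_num) (by norm_num) d
  have h44 : (4 : ℝ) ^ d * 4 ^ d = 16 ^ d := by
    rw [← mul_pow]
    norm_num
  have h4c : (4 : ℝ) ^ d * c2 ≤ δ := (mul_le_mul_of_nonneg_right h416 hc20).trans hA'
  have hBle : B ≤ 4 ^ d * c2 * T := by
    have : (4 : ℝ) ^ d * (K : ℝ) ^ 2 * (3 / 4) ^ (16 * n ^ 2) * T = 4 ^ d * c2 * T := by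
      rw [hc2]
      ring
    rw [← this]
    exact hE1
  have hBle2 : B ≤ δ * T := hBle.trans (mul_le_mul_of_nonneg_right h4c hT0.le)
  have hBle3 : 4 ^ d * B ≤ δ * T := by
    have h1 : (4 : ℝ) ^ d * B ≤ 4 ^ d * (4 ^ d * c2 * T) :=
      mul_le_mul_of_nonneg_left hBle (by positivity)
    have h2 : (4 : ℝ) ^ d * (4 ^ d * c2 * T) = (16 ^ d * c2) * T := by
      rw [← h44]
      ring
    rw [h2] at h1
    exact h1.trans (mul_le_mul_of_nonneg_right hA' hT0.le)
  have hTS : T ≤ (trapP d m).card + B := by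
    rw [hT, hBdef]
    exact_mod_cast hTle
  have hT2 : T ≤ 2 * ((trapP d m).card : ℝ) := by nlinarith
  have hcutR : (cutSize (Lam d 3) (trapP d m) : ℝ) ≤ 3 * δ * T := by
    have h1 : (cutSize (Lam d 3) (trapP d m) : ℝ) ≤ ((∑ x : Pt d, (exitX m x).card : ℕ) : ℝ) := by
      exact_mod_cast hcut
    have h2 : (4 : ℝ) ^ d * (B + c2 * T) + ((d.choose (m - 1) * 2 ^ d : ℕ) : ℝ) * (c3 * T) ≤
        3 * δ * T := by
      have e1 : (4 : ℝ) ^ d * (B + c2 * T) = 4 ^ d * B + (4 ^ d * c2) * T := by ring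
      have e2 : ((d.choose (m - 1) * 2 ^ d : ℕ) : ℝ) * (c3 * T) =
          (((d.choose (m - 1) * 2 ^ d : ℕ) : ℝ) * c3) * T := by ring
      rw [e1, e2]
      have h5 := mul_le_mul_of_nonneg_right h4c hT0.le
      have h6 := mul_le_mul_of_nonneg_right hB' hT0.le
      linarith
    exact h1.trans (hsum.trans h2)
  refine ⟨trapP d m, ?_, Half.two_mul_card_trapP_le d m hm1 (by omega), ?_⟩
  · rw [← Finset.card_pos]
    have : (0 : ℝ) < ((trapP d m).card : ℝ) := by linarith
    exact_mod_cast this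
  · have h1 : 3 * δ * T ≤ 3 * δ * (2 * ((trapP d m).card : ℝ)) :=
      mul_le_mul_of_nonneg_left hT2 (by positivity)
    have h2 : 3 * δ * (2 * ((trapP d m).card : ℝ)) = (9 / 10) ^ d * ((trapP d m).card : ℝ) := by
      rw [hδ]
      ring
    rw [h2] at h1
    exact hcutR.trans h1

end Pool.Agent.MP_f22ace_co.Trap
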