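import Mathlib

/-!
# A trap in the graph `Λ(d,3)`: the resampling lemma
-/

set_option autoImplicit false

namespace Pool.Agent.MP_f22ace_co.Trap

open Finset

/-- admissible states of a pair of points -/
abbrev St : Type := {s : Bool × Bool // ¬ (s.1 = true ∧ s.2 = true)}

lemma card_St : Fintype.card St = 3 := by decide

section
variable {α ι : Type} [DecidableEq α] [Fintype ι]

/-- the points of the pairs -/
def prs (p q : ι → α) : Finset α := univ.image (Sum.elim p q)

lemma mem_prs {p q : ι → α} {a : α} : a ∈ prs p q ↔ ∃ i, p i = a ∨ q i = a := by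
  unfold prs
  simp only [mem_image, mem_univ, true_and, Sum.exists, Sum.elim_inl, Sum.elim_inr]
  constructor
  · rintro (⟨i, hi⟩ | ⟨i, hi⟩)
    · exact ⟨i, Or.inl hi⟩
    · exact ⟨i, Or.inr hi⟩
  · rintro ⟨i, hi | hi⟩
    · exact Or.inl ⟨i, hi⟩
    · exact Or.inr ⟨i, hi⟩

lemma card_prs {p q : ι → α} (h : Function.Injective (Sum.elim p q)) :
    (prs p q).card = 2 * Fintype.card ι := by
  unfold prs
  rw [Finset.card_image_of_injective _ h, Finset.card_univ, Fintype.card_sum]
  ring

lemma card_states_le (p q : ι → α) :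
    ((prs p q).powerset.filter (fun T => ∀ i, ¬ (p i ∈ T ∧ q i ∈ T))).card ≤
      3 ^ Fintype.card ι := by
  classical
  let g : Finset α → (ι → St) := fun T =>
    if h : ∀ i, ¬ (p i ∈ T ∧ q i ∈ T) then
      fun i => ⟨(decide (p i ∈ T), decide (q i ∈ T)), by
        intro hh
        exact h i ⟨of_decide_eq_true hh.1, of_decide_eq_true hh.2⟩⟩
    else fun _ => ⟨(false, false), by simp⟩
  have hcard : (univ : Finset (ι → St)).card = 3 ^ Fintype.card ι := by
    rw [Finset.card_univ, Fintype.card_fun, card_St]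
  rw [← hcard]
  apply Finset.card_le_card_of_injOn g (fun _ _ => Finset.mem_coe.2 (Finset.mem_univ _))
  intro T hT T' hT' hg
  rw [Finset.mem_coe, Finset.mem_filter, Finset.mem_powerset] at hT hT'
  simp only [g, dif_pos hT.2, dif_pos hT'.2] at hg
  have h1 : ∀ i, (p i ∈ T ↔ p i ∈ T') ∧ (q i ∈ T ↔ q i ∈ T') := by
    intro i
    have := congrArg Subtype.val (congrFun hg i)
    simp only [Prod.mk.injEq, decide_eq_decide] at this
    exact this
  ext a
  constructor
  · intro ha
    obtain ⟨i, hi | hi⟩ := mem_prs.1 (hT.1 ha)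
    · rw [← hi]; exact (h1 i).1.1 (hi ▸ ha)
    · rw [← hi]; exact (h1 i).2.1 (hi ▸ ha)
  · intro ha
    obtain ⟨i, hi | hi⟩ := mem_prs.1 (hT'.1 ha)
    · rw [← hi]; exact (h1 i).1.2 (hi ▸ ha)
    · rw [← hi]; exact (h1 i).2.2 (hi ▸ ha)

/-- The resampling lemma. -/
lemma resample (S G : Finset (Finset α)) (R : Finset α) (p q : ι → α)
    (hinj : Function.Injective (Sum.elim p q)) (hR : ∀ A ∈ G, R ⊆ A)
    (hno : ∀ A ∈ G, ∀ i, ¬ (p i ∈ A ∧ q i ∈ A))
    (hin : ∀ A ∈ G, ∀ U ⊆ prs p q, ((A \ R) \ prs p q) ∪ U ∈ S) :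
    (G.card : ℝ) ≤ (3 / 4) ^ Fintype.card ι * S.card := by
  classical
  set V := prs p q with hV
  set T := V.powerset.filter (fun T => ∀ i, ¬ (p i ∈ T ∧ q i ∈ T)) with hT
  have key : (G ×ˢ V.powerset).card ≤ (S ×ˢ T).card := by
    apply Finset.card_le_card_of_injOn
      (fun AU : Finset α × Finset α => (((AU.1 \ R) \ V) ∪ AU.2, AU.1 ∩ V))
    · rintro ⟨A, U⟩ hAU
      rw [Finset.mem_coe, Finset.mem_product, Finset.mem_powerset] at hAU
      rw [Finset.mem_coe, Finset.mem_product]
      refine ⟨hin A hAU.1 U hAU.2, ?_⟩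
      rw [hT, Finset.mem_filter, Finset.mem_powerset]
      refine ⟨Finset.inter_subset_right, fun i hi => hno A hAU.1 i ?_⟩
      exact ⟨(Finset.mem_inter.1 hi.1).1, (Finset.mem_inter.1 hi.2).1⟩
    · rintro ⟨A, U⟩ hAU ⟨A', U'⟩ hAU' heq
      rw [Finset.mem_coe, Finset.mem_product, Finset.mem_powerset] at hAU hAU'
      simp only [Prod.mk.injEq] at heq
      obtain ⟨h1, h2⟩ := heq
      have hR1 := hR A hAU.1
      have hR2 := hR A' hAU'.1
      have hU : U = U' := by
        ext a
        have h3 := Finset.ext_iff.1 h1 a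
        simp only [Finset.mem_union, Finset.mem_sdiff] at h3
        constructor
        · intro ha
          have haV := hAU.2 ha
          tauto
        · intro ha
          have haV := hAU'.2 ha
          tauto
      have hA : A = A' := by
        ext a
        have h3 := Finset.ext_iff.1 h1 a
        have h4 := Finset.ext_iff.1 h2 a
        simp only [Finset.mem_union, Finset.mem_sdiff, Finset.mem_inter] at h3 h4
        have h5 := @hR1 a
        have h6 := @hR2 a
        have h7 : a ∈ U → a ∈ V := fun h => hAU.2 h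
        have h8 : a ∈ U' → a ∈ V := fun h => hAU'.2 h
        tauto
      rw [hU, hA]
  rw [Finset.card_product, Finset.card_product, Finset.card_powerset, card_prs hinj] at key
  have h3 : T.card ≤ 3 ^ Fintype.card ι := card_states_le p q
  have h4 : G.card * 4 ^ Fintype.card ι ≤ S.card * 3 ^ Fintype.card ι := by
    have : (4 : ℕ) ^ Fintype.card ι = 2 ^ (2 * Fintype.card ι) := by
      rw [pow_mul]; norm_num
    rw [this]
    exact key.trans (Nat.mul_le_mul_left _ h3)
  have h5 : (G.card : ℝ) * 4 ^ Fintype.card ι ≤ S.card * 3 ^ Fintype.card ι := by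
    exact_mod_cast h4
  rw [div_pow, div_mul_eq_mul_div, le_div_iff₀ (by positivity)]
  linarith

end

end Pool.Agent.MP_f22ace_co.Trap
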