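import Pool.Agent.TrapF22.Conv
import Pool.Agent.TrapF22.Resample

/-!
# A trap in the graph `Λ(d,3)`: moving lattice points
-/

set_option autoImplicit false

namespace Pool.Agent.MP_f22ace_co.Trap

open Finset

variable {d : ℕ}

instance decFc (x y : Pt d) : Decidable (fc x y) :=
  inferInstanceAs (Decidable (∀ i, (x i = 0 ∨ x i = 3) → y i = x i))

/-- push outward: `1 ↦ 0`, `2 ↦ 3` -/
def outw (a : Fin (3 + 1)) : Fin (3 + 1) := if a = 1 then 0 else if a = 2 then 3 else a
/-- flip `1` and `2` -/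
def flp (a : Fin (3 + 1)) : Fin (3 + 1) := if a = 1 then 2 else if a = 2 then 1 else a
/-- pull inward: `0 ↦ 1`, `3 ↦ 2` -/
def pl1 (a : Fin (3 + 1)) : Fin (3 + 1) := if a = 0 then 1 else if a = 3 then 2 else a
/-- pull inward by two: `0 ↦ 2`, `3 ↦ 1` -/
def pl2 (a : Fin (3 + 1)) : Fin (3 + 1) := if a = 0 then 2 else if a = 3 then 1 else a

/-- push the coordinate `a` outward and flip the coordinate `b` -/
def psh (x : Pt d) (a b : Fin d) : Pt d :=
  fun i => if i = a then outw (x a) else if i = b then flp (x b) else x i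

/-- pull the coordinates in `T` inward -/
def pul1 (x : Pt d) (T : Finset (Fin d)) : Pt d := fun i => if i ∈ T then pl1 (x i) else x i
/-- pull the coordinates in `T` inward by two -/
def pul2 (x : Pt d) (T : Finset (Fin d)) : Pt d := fun i => if i ∈ T then pl2 (x i) else x i

lemma outw_out {a : Fin (3 + 1)} (h : a = 1 ∨ a = 2) : outw a = 0 ∨ outw a = 3 := by
  revert h; revert a; decide

lemma flp_inn {a : Fin (3 + 1)} (h : a = 1 ∨ a = 2) : flp a = 1 ∨ flp a = 2 := by
  revert h; revert a; decide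

lemma flp_ne {a : Fin (3 + 1)} (h : a = 1 ∨ a = 2) : flp a ≠ a := by
  revert h; revert a; decide

lemma pl1_inn {a : Fin (3 + 1)} (h : a = 0 ∨ a = 3) : pl1 a = 1 ∨ pl1 a = 2 := by
  revert h; revert a; decide

lemma pl2_inn {a : Fin (3 + 1)} (h : a = 0 ∨ a = 3) : pl2 a = 1 ∨ pl2 a = 2 := by
  revert h; revert a; decide

lemma pl1_ne_pl2 {a : Fin (3 + 1)} (h : a = 0 ∨ a = 3) : pl1 a ≠ pl2 a := by
  revert h; revert a; decide

lemma pl1_ne {a : Fin (3 + 1)} (h : a = 0 ∨ a = 3) : pl1 a ≠ a := by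
  revert h; revert a; decide

lemma inn_out_absurd {a : Fin (3 + 1)} (h : a = 1 ∨ a = 2) (h' : a = 0 ∨ a = 3) : False := by
  revert h h'; revert a; decide

lemma outw_flp (a : Fin (3 + 1)) (h : a = 1 ∨ a = 2) :
    (outw a : ℕ) + (flp a : ℕ) = (a : ℕ) + (a : ℕ) := by
  revert h; revert a; decide

lemma pl_mid (a : Fin (3 + 1)) (h : a = 0 ∨ a = 3) :
    (a : ℕ) + (pl2 a : ℕ) = (pl1 a : ℕ) + (pl1 a : ℕ) := by
  revert h; revert a; decide

lemma inn_psh {x : Pt d} {a b : Fin d} (ha : a ∈ inn x) (hb : b ∈ inn x) (hab : a ≠ b) :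
    inn (psh x a b) = (inn x).erase a := by
  ext i
  rw [Finset.mem_erase]
  by_cases hia : i = a
  · subst hia
    simp only [ne_eq, not_true_eq_false, false_and, iff_false]
    rw [not_mem_inn]
    simp only [psh, if_true]
    exact outw_out (mem_inn.1 ha)
  · by_cases hib : i = b
    · subst hib
      simp only [ne_eq, hia, not_false_eq_true, true_and]
      rw [mem_inn]
      simp only [psh, if_neg hia, if_true]
      exact ⟨fun _ => hb, fun _ => flp_inn (mem_inn.1 hb)⟩
    · rw [mem_inn, mem_inn]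
      simp only [psh, if_neg hia, if_neg hib]
      simp [hia]

lemma card_inn_psh {x : Pt d} {a b : Fin d} {m : ℕ} (hx : (inn x).card = m + 1) (ha : a ∈ inn x)
    (hb : b ∈ inn x) (hab : a ≠ b) : (inn (psh x a b)).card = m := by
  rw [inn_psh ha hb hab, Finset.card_erase_of_mem ha, hx]
  rfl

lemma psh_mid {x : Pt d} {a b : Fin d} (ha : a ∈ inn x) (hb : b ∈ inn x) (hab : a ≠ b) :
    latPt d 3 (psh x a b) + latPt d 3 (psh x b a) = latPt d 3 x + latPt d 3 x := by
  funext i
  simp only [Pi.add_apply, latPt]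
  by_cases hia : i = a
  · subst hia
    simp only [psh, if_true, if_neg hab]
    exact_mod_cast outw_flp _ (mem_inn.1 ha)
  · by_cases hib : i = b
    · subst hib
      simp only [psh, if_neg hia, if_true]
      have := outw_flp _ (mem_inn.1 hb)
      rw [add_comm] at this
      exact_mod_cast this
    · simp only [psh, if_neg hia, if_neg hib]

lemma fc_of_fc_psh {x y : Pt d} {a b : Fin d} (ha : a ∈ inn x) (hb : b ∈ inn x)
    (h : fc (psh x a b) y) : fc x y := by
  intro i hi
  have hia : i ≠ a := by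
    rintro rfl
    exact inn_out_absurd (mem_inn.1 ha) hi
  have hib : i ≠ b := by
    rintro rfl
    exact inn_out_absurd (mem_inn.1 hb) hi
  have := h i
  simp only [psh, if_neg hia, if_neg hib] at this
  exact this hi

lemma psh_inj {x : Pt d} {a b a' b' : Fin d} (ha : a ∈ inn x) (hb : b ∈ inn x) (hab : a ≠ b)
    (ha' : a' ∈ inn x) (hb' : b' ∈ inn x) (hab' : a' ≠ b') (h : psh x a b = psh x a' b') :
    a = a' ∧ b = b' := by
  have h1 : (inn x).erase a = (inn x).erase a' := by
    rw [← inn_psh ha hb hab, ← inn_psh ha' hb' hab', h]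
  have h2 : a = a' := by
    by_contra hne
    have : a ∈ (inn x).erase a' := Finset.mem_erase.2 ⟨hne, ha⟩
    rw [← h1] at this
    exact (Finset.mem_erase.1 this).1 rfl
  subst h2
  refine ⟨rfl, ?_⟩
  by_contra hne
  have h3 := congrFun h b
  simp only [psh, if_neg (Ne.symm hab), if_true, if_neg hne] at h3
  exact flp_ne (mem_inn.1 hb) h3

lemma inn_pul1 {x : Pt d} {T : Finset (Fin d)} (hT : ∀ i ∈ T, i ∉ inn x) :
    inn (pul1 x T) = inn x ∪ T := by
  ext i
  rw [Finset.mem_union]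
  by_cases hi : i ∈ T
  · simp only [hi, or_true, iff_true]
    rw [mem_inn]
    simp only [pul1, if_pos hi]
    exact pl1_inn (not_mem_inn.1 (hT i hi))
  · simp only [hi, or_false]
    rw [mem_inn, mem_inn]
    simp only [pul1, if_neg hi]

lemma inn_pul2 {x : Pt d} {T : Finset (Fin d)} (hT : ∀ i ∈ T, i ∉ inn x) :
    inn (pul2 x T) = inn x ∪ T := by
  ext i
  rw [Finset.mem_union]
  by_cases hi : i ∈ T
  · simp only [hi, or_true, iff_true]
    rw [mem_inn]
    simp only [pul2, if_pos hi]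
    exact pl2_inn (not_mem_inn.1 (hT i hi))
  · simp only [hi, or_false]
    rw [mem_inn, mem_inn]
    simp only [pul2, if_neg hi]

lemma card_union_out {x : Pt d} {T : Finset (Fin d)} (hT : ∀ i ∈ T, i ∉ inn x) :
    (inn x ∪ T).card = (inn x).card + T.card := by
  apply Finset.card_union_of_disjoint
  rw [Finset.disjoint_right]
  exact hT

lemma pul_mid {x : Pt d} {T : Finset (Fin d)} (hT : ∀ i ∈ T, i ∉ inn x) :
    latPt d 3 x + latPt d 3 (pul2 x T) = latPt d 3 (pul1 x T) + latPt d 3 (pul1 x T) := by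
  funext i
  simp only [Pi.add_apply, latPt]
  by_cases hi : i ∈ T
  · simp only [pul1, pul2, if_pos hi]
    exact_mod_cast pl_mid _ (not_mem_inn.1 (hT i hi))
  · simp only [pul1, pul2, if_neg hi]

lemma pul1_ne {x : Pt d} {T : Finset (Fin d)} (hT : ∀ i ∈ T, i ∉ inn x) (hne : T.Nonempty) :
    x ≠ pul1 x T := by
  obtain ⟨i, hi⟩ := hne
  intro h
  have := congrFun h i
  simp only [pul1, if_pos hi] at this
  exact pl1_ne (not_mem_inn.1 (hT i hi)) this.symm

lemma pul2_ne {x : Pt d} {T : Finset (Fin d)} (hT : ∀ i ∈ T, i ∉ inn x) (hne : T.Nonempty) :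
    pul2 x T ≠ pul1 x T := by
  obtain ⟨i, hi⟩ := hne
  intro h
  have := congrFun h i
  simp only [pul1, pul2, if_pos hi] at this
  exact pl1_ne_pl2 (not_mem_inn.1 (hT i hi)) this.symm

lemma mem_ag {x y : Pt d} {i : Fin d} : i ∈ ag x y ↔ x i = y i ∧ (x i = 0 ∨ x i = 3) := by
  simp [ag]

lemma mem_ag3 {x y z : Pt d} {i : Fin d} :
    i ∈ ag3 x y z ↔ x i = y i ∧ x i = z i ∧ (x i = 0 ∨ x i = 3) := by
  simp [ag3]

/-- if `d ≤ |s| + a` and `d ≤ |t| + b` then `d ≤ |s ∩ t| + (a + b)` -/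
lemma inter_card {s t : Finset (Fin d)} {a b : ℕ} (hs : d ≤ s.card + a) (ht : d ≤ t.card + b) :
    d ≤ (s ∩ t).card + (a + b) := by
  have h1 := Finset.card_union_add_card_inter s t
  have h2 : (s ∪ t).card ≤ d := by
    refine (Finset.card_le_univ _).trans ?_
    simp
  omega

lemma card_compl_inn (x : Pt d) : d ≤ ((inn x)ᶜ).card + (inn x).card := by
  rw [Finset.card_compl, Fintype.card_fin]
  omega

/-- pulled points are clean unless near -/
lemma ag_of_fc_pul {x z y : Pt d} {T : Finset (Fin d)} (hz : inn z = inn x ∪ T)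
    (hzx : ∀ i, i ∉ T → z i = x i) (h : fc z y) :
    d ≤ (ag x y).card + ((inn x).card + T.card) := by
  have h1 : (inn x ∪ T)ᶜ ⊆ ag x y := by
    intro i hi
    rw [Finset.mem_compl, Finset.mem_union, not_or] at hi
    have hiz : i ∉ inn z := by
      rw [hz, Finset.mem_union, not_or]
      exact hi
    have h2 := h i (not_mem_inn.1 hiz)
    rw [hzx i hi.2] at h2
    rw [mem_ag]
    exact ⟨h2.symm, not_mem_inn.1 hi.1⟩
  have h2 := Finset.card_le_card h1
  rw [Finset.card_compl, Fintype.card_fin] at h2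
  have h3 := Finset.card_union_le (inn x) T
  omega

/-- the trap is closed under taking subsets -/
lemma InTrap.mono {m : ℕ} {A B : Finset (Pt d)} (hA : InTrap m A) (h : B ⊆ A) : InTrap m B :=
  ⟨hA.1.mono h, fun a ha => hA.2.1 a (h ha), fun x hx y hy z hz =>
    hA.2.2 x (h hx) y (h hy) z (h hz)⟩

/-- The main counting lemma. -/
lemma count_bad {m : ℕ} {ι : Type} [Fintype ι] (R : Finset (Pt d)) (p q : ι → Pt d)
    (hinj : Function.Injective (Sum.elim p q)) (hp : ∀ i, (inn (p i)).card = m)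
    (hq : ∀ i, (inn (q i)).card = m) (G : Finset (Finset (Pt d)))
    (hG : ∀ A ∈ G, InTrap m A ∧ R ⊆ A ∧ (∀ i, ¬ (p i ∈ A ∧ q i ∈ A)) ∧
      ∀ i, ∀ y ∈ A, y ∉ R → (inn y).card + 1 = m → ¬ fc (p i) y ∧ ¬ fc (q i) y) :
    (G.card : ℝ) ≤ (3 / 4) ^ Fintype.card ι * (trap d m).card := by
  classical
  refine resample (trap d m) G R p q hinj (fun A hA => (hG A hA).2.1)
    (fun A hA => (hG A hA).2.2.1) ?_
  intro A hA U hU
  obtain ⟨hT, hRA, hno, hcl⟩ := hG A hA
  have hUm : ∀ z ∈ U, (inn z).card = m := by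
    intro z hz
    obtain ⟨i, hi | hi⟩ := mem_prs.1 (hU hz)
    · rw [← hi]; exact hp i
    · rw [← hi]; exact hq i
  have hBA : (A \ R) \ prs p q ⊆ A := Finset.sdiff_subset.trans Finset.sdiff_subset
  simp only [trap, Finset.mem_filter, Finset.mem_univ, true_and]
  refine ⟨?_, ?_, ?_⟩
  · refine CP_union (m := m) (hT.1.mono hBA) ?_ hUm ?_
    · intro b hb
      rcases hT.2.1 b (hBA hb) with h | h <;> omega
    · intro z hz b hb hzb
      rcases hT.2.1 b (hBA hb) with h | h
      · exact h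
      · exfalso
        have hbR : b ∉ R := (Finset.mem_sdiff.1 (Finset.mem_sdiff.1 hb).1).2
        obtain ⟨i, hi | hi⟩ := mem_prs.1 (hU hz)
        · rw [← hi] at hzb
          exact (hcl i b (hBA hb) hbR h).1 hzb
        · rw [← hi] at hzb
          exact (hcl i b (hBA hb) hbR h).2 hzb
  · intro a ha
    rcases Finset.mem_union.1 ha with h | h
    · exact hT.2.1 a (hBA h)
    · exact Or.inl (hUm a h)
  · have hmem : ∀ x ∈ (A \ R) \ prs p q ∪ U, (inn x).card + 1 = m → x ∈ A := by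
      intro x hx hxm
      rcases Finset.mem_union.1 hx with h | h
      · exact hBA h
      · have := hUm x h
        omega
    intro x hx y hy z hz h1 h2 h3
    exact hT.2.2 x (hmem x hx h1) y (hmem y hy h2) z (hmem z hz h3) h1 h2 h3

/-- At most two points of the trap with `m - 1` inner coordinates are near a given point. -/
lemma card_near_le_two {m : ℕ} {A : Finset (Pt d)} (hA : InTrap m A) (x : Pt d) :
    (A.filter (fun y => (inn y).card + 1 = m ∧ d ≤ (ag x y).card + m)).card ≤ 2 := by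
  by_contra hcon
  push Not at hcon
  obtain ⟨a, b, c, ha, hb, hc, hab, hac, hbc⟩ := Finset.two_lt_card_iff.1 hcon
  rw [Finset.mem_filter] at ha hb hc
  have h1 := inter_card (inter_card ha.2.2 hb.2.2) hc.2.2
  have h2 : ag x a ∩ ag x b ∩ ag x c ⊆ ag3 a b c := by
    intro i hi
    simp only [Finset.mem_inter, mem_ag] at hi
    obtain ⟨⟨⟨h1, h2⟩, h3, h4⟩, h5, h6⟩ := hi
    rw [mem_ag3]
    exact ⟨h1.symm.trans h3, h1.symm.trans h5, h1 ▸ h2⟩
  have h3 := Finset.card_le_card h2
  have h4 := hA.2.2 a ha.1 b hb.1 c hc.1 ha.2.1 hb.2.1 hc.2.1 hab hac hbc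
  omega

/-- At most two points of the trap with `m - 1` inner coordinates are in a face of
dimension `m + 1`. -/
lemma card_face_le_two {m : ℕ} {A : Finset (Pt d)} (hA : InTrap m A) {x : Pt d}
    (hx : (inn x).card = m + 1) (hm : 1 ≤ m) :
    (A.filter (fun y => (inn y).card + 1 = m ∧ fc x y)).card ≤ 2 := by
  by_contra hcon
  push Not at hcon
  obtain ⟨a, b, c, ha, hb, hc, hab, hac, hbc⟩ := Finset.two_lt_card_iff.1 hcon
  rw [Finset.mem_filter] at ha hb hc
  have h2 : (inn x)ᶜ ⊆ ag3 a b c := by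
    intro i hi
    rw [Finset.mem_compl, not_mem_inn] at hi
    rw [mem_ag3, ha.2.2 i hi, hb.2.2 i hi, hc.2.2 i hi]
    exact ⟨rfl, rfl, hi⟩
  have h3 := Finset.card_le_card h2
  have h5 := card_compl_inn x
  have h4 := hA.2.2 a ha.1 b hb.1 c hc.1 ha.2.1 hb.2.1 hc.2.1 hab hac hbc
  omega

end Pool.Agent.MP_f22ace_co.Trap
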