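import Pool.Agent.TrapF22.Moves

/-!
# A trap in the graph `Λ(d,3)`: the exit sets
-/

set_option autoImplicit false

namespace Pool.Agent.MP_f22ace_co.Trap

open Finset

variable {d : ℕ}

/-- the lattice points near `x` -/
def nearX (m : ℕ) (x : Pt d) : Finset (Pt d) := univ.filter (fun y => (df x y).card ≤ 4 * m)

/-- the small sets of points near `x` -/
def smallR (m t : ℕ) (x : Pt d) : Finset (Finset (Pt d)) :=
  (nearX m x).powerset.filter (fun R => R.card ≤ t)

/-- `A` contains no pair of points around `x` -/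
def Bad (A : Finset (Pt d)) (x : Pt d) : Prop :=
  ∀ a ∈ inn x, ∀ b ∈ inn x, a ≠ b → ¬ (psh x a b ∈ A ∧ psh x b a ∈ A)

open Classical in
/-- the members of the trap with a bad point -/
noncomputable def badAll (d m : ℕ) : Finset (Finset (Pt d)) :=
  (trap d m).filter (fun A => ∃ x : Pt d, (inn x).card = m + 1 ∧ Bad A x)

open Classical in
/-- the members of the trap which one can leave by inserting `x` -/
noncomputable def exitX (m : ℕ) (x : Pt d) : Finset (Finset (Pt d)) :=
  (trap d m).filter (fun A => x ∉ A ∧ CP (insert x A) ∧ ¬ InTrap m (insert x A))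

lemma union_bound {α β : Type} [DecidableEq β] (s : Finset α) (t : α → Finset β) (c : ℝ)
    (hc : ∀ a ∈ s, ((t a).card : ℝ) ≤ c) : ((s.biUnion t).card : ℝ) ≤ s.card * c := by
  have h1 : ((s.biUnion t).card : ℝ) ≤ ∑ a ∈ s, ((t a).card : ℝ) := by
    exact_mod_cast Finset.card_biUnion_le
  refine h1.trans ?_
  have := Finset.sum_le_card_nsmul s (fun a => ((t a).card : ℝ)) c hc
  simpa using this

lemma mem_trap {m : ℕ} {A : Finset (Pt d)} : A ∈ trap d m ↔ InTrap m A := by
  simp [trap]

end Pool.Agent.MP_f22ace_co.Trap
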